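import Pool.Agent.H21.DL.Defs

/-!
# First facts
-/

set_option autoImplicit false

namespace Pool.Agent.H21.DL

open Finset Pool.Agent.H66.MB

theorem av_nonneg {n : ℕ} (G : SimpleGraph (Fin n)) (u v : Fin n) : 0 ≤ av G u v := by
  unfold av
  split_ifs
  · exact zero_le_one
  · exact le_refl _

theorem av_le_one {n : ℕ} (G : SimpleGraph (Fin n)) (u v : Fin n) : av G u v ≤ 1 := by
  unfold av
  split_ifs
  · exact le_refl _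
  · exact zero_le_one

theorem Overlay.pos {n m : ℕ} {X : Fin n → Fin m → ℝ} (hX : Overlay X) (hn : 0 < n) : 0 < m := by
  rcases Nat.eq_zero_or_pos m with h | h
  · exfalso
    subst h
    have h1 := hX.row ⟨0, hn⟩
    rw [Fin.sum_univ_zero] at h1
    have h2 : (0 : ℝ) < 1 / n := by
      have : (0 : ℝ) < n := by exact_mod_cast hn
      positivity
    rw [← h1] at h2
    exact lt_irrefl _ h2
  · exact h

theorem CutLe.of_edit {n m : ℕ} {G : SimpleGraph (Fin n)} {F : SimpleGraph (Fin m)} {δ : ℝ}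
    (h : EditLe G F δ) : CutLe G F δ := by
  obtain ⟨X, hX, h1⟩ := h
  refine ⟨X, hX, fun S T => le_trans ?_ h1⟩
  refine (abs_sum_le_sum_abs _ _).trans ?_
  have h2 : ∀ p q : Fin n × Fin m, 0 ≤ X p.1 p.2 * X q.1 q.2 * |av G p.1 q.1 - av F p.2 q.2| :=
    fun p q => mul_nonneg (mul_nonneg (hX.nonneg _ _) (hX.nonneg _ _)) (abs_nonneg _)
  calc ∑ p ∈ S, |∑ q ∈ T, X p.1 p.2 * X q.1 q.2 * (av G p.1 q.1 - av F p.2 q.2)|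
      ≤ ∑ p ∈ S, ∑ q : Fin n × Fin m,
        X p.1 p.2 * X q.1 q.2 * |av G p.1 q.1 - av F p.2 q.2| := by
        refine sum_le_sum fun p _ => ?_
        refine (abs_sum_le_sum_abs _ _).trans ?_
        calc ∑ q ∈ T, |X p.1 p.2 * X q.1 q.2 * (av G p.1 q.1 - av F p.2 q.2)|
            = ∑ q ∈ T, X p.1 p.2 * X q.1 q.2 * |av G p.1 q.1 - av F p.2 q.2| := by
              refine sum_congr rfl fun q _ => ?_
              rw [abs_mul, abs_of_nonneg (mul_nonneg (hX.nonneg _ _) (hX.nonneg _ _))]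
          _ ≤ _ := sum_le_sum_of_subset_of_nonneg (subset_univ _) fun q _ _ => h2 p q
    _ ≤ _ := sum_le_sum_of_subset_of_nonneg (subset_univ _) fun p _ _ =>
        sum_nonneg fun q _ => h2 p q

theorem nearE_le {𝓕 : Cls} {δ : ℝ} {n : ℕ} {G : SimpleGraph (Fin n)} (h : nearE 𝓕 δ n G) :
    nearC 𝓕 δ n G := by
  obtain ⟨m, F, h1, h2⟩ := h
  exact ⟨m, F, h1, CutLe.of_edit h2⟩

theorem inn_nonneg {m : ℕ} (F : SimpleGraph (Fin m)) (C : Finset (Fin m)) : 0 ≤ inn F C :=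
  sum_nonneg fun _ _ => sum_nonneg fun _ _ => av_nonneg _ _ _

theorem ratios_bdd (𝓕 : Cls) (δ : ℝ) : ∀ x ∈ ratios 𝓕 δ, 0 ≤ x ∧ x ≤ 1 := by
  rintro x ⟨m, F, C, hm, -, -, rfl⟩
  have hm' : (0 : ℝ) < m := by exact_mod_cast hm
  refine ⟨by positivity, ?_⟩
  rw [div_le_one hm']
  have h1 := card_le_univ C
  rw [Fintype.card_fin] at h1
  exact_mod_cast h1

theorem ratios_bddAbove (𝓕 : Cls) (δ : ℝ) : BddAbove (ratios 𝓕 δ) :=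
  ⟨1, fun x hx => (ratios_bdd 𝓕 δ x hx).2⟩

theorem ratios_mono (𝓕 : Cls) {δ δ' : ℝ} (h : δ ≤ δ') : ratios 𝓕 δ ⊆ ratios 𝓕 δ' := by
  rintro x ⟨m, F, C, hm, hF, hC, rfl⟩
  exact ⟨m, F, C, hm, hF, hC.trans (mul_le_mul_of_nonneg_right h (by positivity)), rfl⟩

/-- `𝓕` contains a graph with at least one vertex -/
def NE (𝓕 : Cls) : Prop := ∃ (m : ℕ) (F : SimpleGraph (Fin m)), 0 < m ∧ 𝓕 m F

theorem zero_mem_ratios {𝓕 : Cls} (h : NE 𝓕) {δ : ℝ} (hδ : 0 ≤ δ) : (0 : ℝ) ∈ ratios 𝓕 δ := by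
  obtain ⟨m, F, hm, hF⟩ := h
  refine ⟨m, F, ∅, hm, hF, ?_, by simp⟩
  unfold inn
  rw [sum_empty]
  positivity

theorem sp_mono {𝓕 : Cls} (h : NE 𝓕) {δ δ' : ℝ} (h0 : 0 ≤ δ) (h1 : δ ≤ δ') : sp 𝓕 δ ≤ sp 𝓕 δ' :=
  csSup_le_csSup (ratios_bddAbove _ _) ⟨0, zero_mem_ratios h h0⟩ (ratios_mono _ h1)

theorem sp_nonneg {𝓕 : Cls} (h : NE 𝓕) {δ : ℝ} (h0 : 0 ≤ δ) : 0 ≤ sp 𝓕 δ :=
  le_csSup (ratios_bddAbove _ _) (zero_mem_ratios h h0)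

theorem sp_le_one {𝓕 : Cls} (h : NE 𝓕) {δ : ℝ} (h0 : 0 ≤ δ) : sp 𝓕 δ ≤ 1 :=
  csSup_le ⟨0, zero_mem_ratios h h0⟩ fun x hx => (ratios_bdd _ _ x hx).2

theorem theta_set_bdd {𝓕 : Cls} (h : NE 𝓕) : BddBelow (sp 𝓕 '' Set.Ioi 0) := by
  refine ⟨0, ?_⟩
  rintro x ⟨δ, hδ, rfl⟩
  exact sp_nonneg h (le_of_lt hδ)

theorem theta_set_ne (𝓕 : Cls) : (sp 𝓕 '' Set.Ioi 0).Nonempty := ⟨sp 𝓕 1, 1, Set.mem_Ioi.2 one_pos, rfl⟩

theorem theta_nonneg {𝓕 : Cls} (h : NE 𝓕) : 0 ≤ theta 𝓕 := by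
  refine le_csInf (theta_set_ne 𝓕) ?_
  rintro x ⟨δ, hδ, rfl⟩
  exact sp_nonneg h (le_of_lt hδ)

theorem theta_le {𝓕 : Cls} (h : NE 𝓕) {δ : ℝ} (h0 : 0 < δ) : theta 𝓕 ≤ sp 𝓕 δ :=
  csInf_le (theta_set_bdd h) ⟨δ, h0, rfl⟩

theorem exists_sp_lt {𝓕 : Cls} {x : ℝ} (hx : theta 𝓕 < x) : ∃ δ : ℝ, 0 < δ ∧ sp 𝓕 δ < x := by
  obtain ⟨y, ⟨δ, hδ, rfl⟩, hy⟩ := exists_lt_of_csInf_lt (theta_set_ne 𝓕) hx
  exact ⟨δ, hδ, hy⟩

/-- a set with few inner edges and density above `x` -/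
theorem exists_set {𝓕 : Cls} (h : NE 𝓕) {x δ : ℝ} (hx : x < theta 𝓕) (hδ : 0 < δ) :
    ∃ (m : ℕ) (F : SimpleGraph (Fin m)) (C : Finset (Fin m)), 0 < m ∧ 𝓕 m F ∧
      inn F C ≤ δ * m ^ 2 ∧ x < C.card / m := by
  have h1 : x < sp 𝓕 δ := lt_of_lt_of_le hx (theta_le h hδ)
  obtain ⟨y, ⟨m, F, C, hm, hF, hC, rfl⟩, hy⟩ :=
    exists_lt_of_lt_csSup ⟨0, zero_mem_ratios h hδ.le⟩ h1
  exact ⟨m, F, C, hm, hF, hC, hy⟩

/-- more graphs, larger infimum -/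
theorem eps_mono {𝒢 ℋ : Cls} (h : ∀ n G, 𝒢 n G → ℋ n G) : eps 𝒢 ≤ eps ℋ := by
  have h1 : 1 + eps 𝒢 ≤ 1 + eps ℋ := by
    refine le_of_forall_pos_le_add fun η hη => ?_
    have h2 : InTime ℋ (1 + eps ℋ + η) := inTime_of_gt (by linarith)
    obtain ⟨p, C, hp⟩ := h2
    have h3 : InTime 𝒢 (1 + eps ℋ + η) := ⟨p, C, fun n G hG => hp n G (h n G hG)⟩
    exact eps_le (by have := eps_nonneg ℋ; linarith) h3
  linarith

end Pool.Agent.H21.DL
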