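import Pool.Agent.H21.DL.Basic

/-!
# The gadget: a blow-up with a planted graph

`Fm` is the matrix of a graph on `m` vertices, `k ≤ m`. The new graph has `m t` vertices; the vertex
`i` belongs to the part `i / t`. Inside the first `k` parts (`i < k t`) there are only the edges of
the given graph `M`; all other pairs are as in the blow-up of `Fm`, except that the vertices
`i ≥ k t` form cliques of (at most) `r` vertices, the clique number `(i - k t) / r`, and the vertex
number `M.length + c` is joined to the whole clique number `c`.

`blow_back`: let `S` be a maximum independent set, `N = M.length`, `S1 = S ∩ [0, N)`,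
`S2 = S ∩ [N, k t)`, `S3 = S ∩ [k t, m t)`. The map `i ↦ N + (i - k t) / r` from `S3` to
`[N, k t) \ S2` is injective, so `|S2| + |S3| ≤ k t - N`; and `J ∪ [N, k t)` is independent for
every independent set `J` of `M`.
-/

set_option autoImplicit false

namespace Pool.Agent.H21.DL

open Pool.Agent.H80.Poly Pool.Agent.H66.MB

/-- number of copies of every vertex -/
def gt (m k r t0 N : ℕ) : ℕ := (N + 1) * r / (k * r - (m - k)) + t0

/-- the adjacency of the gadget -/
def ge (Fm M : Mat) (k r t i j : ℕ) : Bool :=
  if i < k * t then
    (if j < k * t then adj M i j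
      else (adj Fm (i / t) (j / t) || decide (i = M.length + (j - k * t) / r)))
  else
    (if j < k * t then (adj Fm (i / t) (j / t) || decide (j = M.length + (i - k * t) / r))
      else (decide (i ≠ j) && (adj Fm (i / t) (j / t) || decide ((i - k * t) / r = (j - k * t) / r))))

/-- the matrix of the gadget -/
def blow (Fm M : Mat) (m k r t : ℕ) : Mat := mk (m * t) (ge Fm M k r t)

theorem blow_length (Fm M : Mat) (m k r t : ℕ) : (blow Fm M m k r t).length = m * t := mk_length _ _

theorem adj_blow (Fm M : Mat) (m k r t i j : ℕ) : adj (blow Fm M m k r t) i j =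
    (decide (i < m * t) && decide (j < m * t) && ge Fm M k r t i j) := by
  unfold blow
  exact adj_mk _ _ _ _

theorem blow_valid {Fm M : Mat} (hF : Valid Fm) (hM : Valid M) (m k r t : ℕ) :
    Valid (blow Fm M m k r t) := by
  unfold blow
  apply valid_mk
  · intro i _ j _
    unfold ge
    by_cases h1 : i < k * t
    · by_cases h2 : j < k * t
      · simp only [h1, h2, if_true]
        exact hM.2.1 i j
      · simp only [h1, h2, if_true, if_false]
        rw [hF.2.1]
    · by_cases h2 : j < k * t
      · simp only [h1, h2, if_true, if_false]
        rw [hF.2.1]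
      · simp only [h1, h2, if_false]
        rw [hF.2.1 (i / t) (j / t)]
        congr 1
        · exact decide_eq_decide.2 ne_comm
        · congr 1
          exact decide_eq_decide.2 eq_comm
  · intro i _
    unfold ge
    by_cases h1 : i < k * t
    · simp only [h1, if_true]
      exact hM.2.2 i
    · simp [h1]

theorem blow_back {Fm M : Mat} (hM : Valid M) {m k r t : ℕ} (hkm : k ≤ m)
    (hc : M.length + (m - k) * t / r + 1 ≤ k * t) (c : List Bool)
    (h : MaxV (blow Fm M m k r t) c) : MaxV M (c.take M.length) := by
  have hktm : k * t ≤ m * t := Nat.mul_le_mul_right t hkm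
  have hlen : (blow Fm M m k r t).length = m * t := blow_length _ _ _ _ _ _
  have hcl : c.length = m * t := by rw [h.1, hlen]
  obtain ⟨s0, hs0⟩ : ∃ s0, s0 = (m - k) * t / r := ⟨_, rfl⟩
  rw [← hs0] at hc
  have hNk : M.length < k * t := by omega
  have htl : (c.take M.length).length = M.length := by
    rw [List.length_take, hcl]
    omega
  have hgetD : ∀ i, (c.take M.length).getD i false = true ↔
      i < M.length ∧ c.getD i false = true := by
    intro i
    rw [List.getD_eq_getElem?_getD, List.getD_eq_getElem?_getD, List.getElem?_take]
    by_cases hi : i < M.length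
    · rw [if_pos hi]
      exact ⟨fun h => ⟨hi, h⟩, fun h => h.2⟩
    · rw [if_neg hi]
      constructor
      · intro h
        simp at h
      · intro h
        exact absurd h.1 hi
  obtain ⟨S, hS⟩ : ∃ S : Finset ℕ,
      S = (Finset.range c.length).filter (fun i => c.getD i false = true) := ⟨_, rfl⟩
  have hScard : S.card = c.count true := by
    rw [hS]
    exact (count_true c).symm
  have hSm : ∀ x ∈ S, x < m * t ∧ c.getD x false = true := by
    intro x hx
    rw [hS, Finset.mem_filter, Finset.mem_range, hcl] at hx
    exact hx
  have hSI : ∀ x ∈ S, ∀ y ∈ S, ge Fm M k r t x y = false := by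
    intro x hx y hy
    have h1 := h.2.1 x y (hSm x hx).2 (hSm y hy).2
    rw [adj_blow, decide_eq_true (hSm x hx).1, decide_eq_true (hSm y hy).1, Bool.true_and,
      Bool.true_and] at h1
    exact h1
  have hIV : IndV M (c.take M.length) := by
    intro i j hi hj
    rw [hgetD] at hi hj
    have h1 := h.2.1 i j hi.2 hj.2
    have h2 : i < m * t := by omega
    have h3 : j < m * t := by omega
    rw [adj_blow, decide_eq_true h2, decide_eq_true h3, Bool.true_and, Bool.true_and] at h1
    unfold ge at h1
    rw [if_pos (by omega), if_pos (by omega)] at h1
    exact h1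
  -- the upper part of `S` is small
  have hup : (S.filter (fun x => ¬ x < M.length)).card ≤ k * t - M.length := by
    have h3 := Finset.card_filter_add_card_filter_not (s := S.filter (fun x => ¬ x < M.length))
      (fun x => x < k * t)
    have himg : (((S.filter (fun x => ¬ x < M.length)).filter (fun x => ¬ x < k * t)).image
        (fun i => M.length + (i - k * t) / r)).card =
        ((S.filter (fun x => ¬ x < M.length)).filter (fun x => ¬ x < k * t)).card := by
      apply Finset.card_image_of_injOn
      intro x hx y hy hxy
      rw [Finset.mem_coe, Finset.mem_filter, Finset.mem_filter] at hx hy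
      by_contra hne
      have h4 := hSI x hx.1.1 y hy.1.1
      unfold ge at h4
      rw [if_neg hx.2, if_neg hy.2] at h4
      have h5 : (x - k * t) / r = (y - k * t) / r := Nat.add_left_cancel hxy
      simp [hne, h5] at h4
    have hdis : Disjoint ((S.filter (fun x => ¬ x < M.length)).filter (fun x => x < k * t))
        (((S.filter (fun x => ¬ x < M.length)).filter (fun x => ¬ x < k * t)).image
        (fun i => M.length + (i - k * t) / r)) := by
      rw [Finset.disjoint_left]
      intro x hx hx'
      rw [Finset.mem_image] at hx'
      obtain ⟨y, hy, hyx⟩ := hx'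
      rw [Finset.mem_filter, Finset.mem_filter] at hx hy
      have h4 := hSI x hx.1.1 y hy.1.1
      unfold ge at h4
      rw [if_pos hx.2, if_neg hy.2, decide_eq_true hyx.symm, Bool.or_true] at h4
      exact absurd h4 (by decide)
    have hsub : ((S.filter (fun x => ¬ x < M.length)).filter (fun x => x < k * t)) ∪
        (((S.filter (fun x => ¬ x < M.length)).filter (fun x => ¬ x < k * t)).image
        (fun i => M.length + (i - k * t) / r)) ⊆ Finset.Ico M.length (k * t) := by
      intro x hx
      rw [Finset.mem_union] at hx
      rw [Finset.mem_Ico]
      rcases hx with hx | hx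
      · rw [Finset.mem_filter, Finset.mem_filter] at hx
        omega
      · rw [Finset.mem_image] at hx
        obtain ⟨y, hy, rfl⟩ := hx
        rw [Finset.mem_filter, Finset.mem_filter] at hy
        have h4 := (hSm y hy.1.1).1
        have h5 : (y - k * t) / r ≤ s0 := by
          rw [hs0]
          apply Nat.div_le_div_right
          rw [Nat.sub_mul]
          omega
        generalize (y - k * t) / r = w at h5 ⊢
        omega
    have h6 := Finset.card_le_card hsub
    rw [Finset.card_union_of_disjoint hdis, himg, Nat.card_Ico] at h6
    omega
  refine ⟨htl, hIV, ?_⟩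
  intro e he heI
  obtain ⟨J, hJ⟩ : ∃ J : Finset ℕ,
      J = (Finset.range e.length).filter (fun i => e.getD i false = true) := ⟨_, rfl⟩
  have hJcard : J.card = e.count true := by
    rw [hJ]
    exact (count_true e).symm
  have hJm : ∀ x ∈ J, x < M.length ∧ e.getD x false = true := by
    intro x hx
    rw [hJ, Finset.mem_filter, Finset.mem_range, he] at hx
    exact hx
  have hlow : Ind (blow Fm M m k r t) (J ∪ Finset.Ico M.length (k * t)) := by
    intro x hx y hy
    have hlt : ∀ z ∈ J ∪ Finset.Ico M.length (k * t), z < k * t := by
      intro z hz
      rw [Finset.mem_union] at hz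
      rcases hz with hz | hz
      · have := (hJm z hz).1
        omega
      · exact (Finset.mem_Ico.1 hz).2
    rw [adj_blow]
    have hz : ge Fm M k r t x y = false := by
      unfold ge
      rw [if_pos (hlt x hx), if_pos (hlt y hy)]
      by_contra h7
      rw [Bool.not_eq_false] at h7
      obtain ⟨h8, h9⟩ := adj_lt hM h7
      rw [Finset.mem_union, Finset.mem_Ico] at hx hy
      rcases hx with hx | hx
      · rcases hy with hy | hy
        · have h10 := heI x y (hJm x hx).2 (hJm y hy).2
          rw [h10] at h7
          exact absurd h7 (by decide)
        · omega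
      · omega
    rw [hz, Bool.and_false]
  have h1 : (J ∪ Finset.Ico M.length (k * t)).card ≤ c.count true := by
    apply maxV_card h _ _ hlow
    intro x hx
    rw [hlen]
    rw [Finset.mem_union, Finset.mem_Ico] at hx
    rcases hx with hx | hx
    · have := (hJm x hx).1
      omega
    · omega
  have h2 : (J ∪ Finset.Ico M.length (k * t)).card = J.card + (k * t - M.length) := by
    rw [Finset.card_union_of_disjoint, Nat.card_Ico]
    rw [Finset.disjoint_left]
    intro x hx hx'
    have := (hJm x hx).1
    rw [Finset.mem_Ico] at hx'
    omega
  have h3 := Finset.card_filter_add_card_filter_not (s := S) (fun x => x < M.length)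
  have h4 : (S.filter (fun x => x < M.length)).card = (c.take M.length).count true := by
    rw [count_true]
    congr 1
    ext x
    rw [Finset.mem_filter, Finset.mem_filter, hgetD, Finset.mem_range, htl, hS, Finset.mem_filter,
      Finset.mem_range]
    constructor
    · rintro ⟨⟨_, h6⟩, h7⟩
      exact ⟨h7, h7, h6⟩
    · rintro ⟨h5, _, h7⟩
      exact ⟨⟨by omega, h7⟩, h5⟩
  omega

end Pool.Agent.H21.DL
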