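import Pool.Agent.H66.MB.CoreFin

/-!
# Dense graphs: definitions

Two graphs `G` (on `n` vertices) and `F` (on `m` vertices) are compared by fractional overlays:
nonnegative weights `X u x` (`u` a vertex of `G`, `x` a vertex of `F`) with row sums `1 / n` and
column sums `1 / m`.
-/

set_option autoImplicit false

namespace Pool.Agent.H21.DL

open Finset Pool.Agent.H66.MB

open Classical in
/-- The 0/1 value of an adjacency. -/
noncomputable def av {n : ℕ} (G : SimpleGraph (Fin n)) (u v : Fin n) : ℝ := if G.Adj u v then 1 else 0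

/-- `X` is a fractional overlay of a set with `n` elements and a set with `m` elements. -/
structure Overlay {n m : ℕ} (X : Fin n → Fin m → ℝ) : Prop where
  nonneg : ∀ u x, 0 ≤ X u x
  row : ∀ u, ∑ x, X u x = 1 / n
  col : ∀ x, ∑ u, X u x = 1 / m

/-- The cut distance of `G` and `F` is at most `δ` (witnessed by an overlay). -/
def CutLe {n m : ℕ} (G : SimpleGraph (Fin n)) (F : SimpleGraph (Fin m)) (δ : ℝ) : Prop :=
  ∃ X : Fin n → Fin m → ℝ, Overlay X ∧ ∀ S T : Finset (Fin n × Fin m),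
    |∑ p ∈ S, ∑ q ∈ T, X p.1 p.2 * X q.1 q.2 * (av G p.1 q.1 - av F p.2 q.2)| ≤ δ

/-- The edit distance of `G` and `F` is at most `δ` (witnessed by an overlay). -/
def EditLe {n m : ℕ} (G : SimpleGraph (Fin n)) (F : SimpleGraph (Fin m)) (δ : ℝ) : Prop :=
  ∃ X : Fin n → Fin m → ℝ, Overlay X ∧
    ∑ p : Fin n × Fin m, ∑ q : Fin n × Fin m,
      X p.1 p.2 * X q.1 q.2 * |av G p.1 q.1 - av F p.2 q.2| ≤ δ

/-- Graphs at cut distance at most `δ` from a member of `𝓕`. -/
def nearC (𝓕 : Cls) (δ : ℝ) : Cls := fun _ G => ∃ (m : ℕ) (F : SimpleGraph (Fin m)), 𝓕 m F ∧ CutLe G F δ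

/-- Graphs at edit distance at most `δ` from a member of `𝓕`. -/
def nearE (𝓕 : Cls) (δ : ℝ) : Cls := fun _ G => ∃ (m : ℕ) (F : SimpleGraph (Fin m)), 𝓕 m F ∧ EditLe G F δ

/-- Number of ordered pairs of adjacent vertices in `C` (twice the number of edges inside `C`). -/
noncomputable def inn {m : ℕ} (F : SimpleGraph (Fin m)) (C : Finset (Fin m)) : ℝ :=
  ∑ x ∈ C, ∑ y ∈ C, av F x y

/-- The numbers `|C| / |F|` for the sets `C` of vertices of the nonempty members `F` of `𝓕` with at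
most `δ |F|²` ordered pairs of adjacent vertices in `C`. -/
def ratios (𝓕 : Cls) (δ : ℝ) : Set ℝ := {x | ∃ (m : ℕ) (F : SimpleGraph (Fin m)) (C : Finset (Fin m)),
  0 < m ∧ 𝓕 m F ∧ inn F C ≤ δ * m ^ 2 ∧ x = C.card / m}

/-- The largest density of a set with at most `δ |F|²` ordered pairs of adjacent vertices. -/
noncomputable def sp (𝓕 : Cls) (δ : ℝ) : ℝ := sSup (ratios 𝓕 δ)

/-- The limit of `sp 𝓕 δ` for `δ → 0` (an infimum, as `sp 𝓕` is monotone). -/
noncomputable def theta (𝓕 : Cls) : ℝ := sInf (sp 𝓕 '' Set.Ioi 0)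

end Pool.Agent.H21.DL
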