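import Pool.Agent.H21.DL.Main

/-!
# Graphs of given density

`dens ρ`: graphs with at least `ρ n² / 2` edges. A set `C` with `inn F C ≤ δ m²` satisfies
`ρ m² ≤ inn F univ ≤ m² - |C|² + inn F C`, so `|C| ≤ √(1 - ρ + δ) m`. Graphs near `dens ρ` are in
`dens (ρ - δ)`.
-/

set_option autoImplicit false

namespace Pool.Agent.H21.DL

open Finset Filter Topology Pool.Agent.H66.MB

/-- graphs with at least `ρ n² / 2` edges -/
def dens (ρ : ℝ) : Cls := fun n G => ρ * n ^ 2 ≤ inn G univ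

theorem inn_univ_le {m : ℕ} (F : SimpleGraph (Fin m)) (C : Finset (Fin m)) :
    inn F univ ≤ m ^ 2 - (C.card : ℝ) ^ 2 + inn F C := by
  classical
  obtain ⟨i, hi⟩ : ∃ i : Fin m → ℝ, ∀ x, i x = if x ∈ C then 1 else 0 :=
    ⟨fun x => if x ∈ C then 1 else 0, fun _ => rfl⟩
  have h1 : ∑ x, i x = C.card := by
    simp_rw [hi]
    rw [sum_ite_mem, univ_inter, sum_const, nsmul_eq_mul, mul_one]
  have h2 : inn F C = ∑ x, ∑ y, i x * i y * av F x y := by
    have e1 : ∀ x : Fin m, ∑ y, i x * i y * av F x y = if x ∈ C then ∑ y ∈ C, av F x y else 0 := by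
      intro x
      rw [hi]
      by_cases hx : x ∈ C
      · rw [if_pos hx, if_pos hx]
        have e2 : ∀ y : Fin m, (1 : ℝ) * i y * av F x y = if y ∈ C then av F x y else 0 := by
          intro y
          rw [hi]
          split_ifs
          · ring
          · ring
        simp_rw [e2]
        rw [sum_ite_mem, univ_inter]
      · rw [if_neg hx, if_neg hx]
        refine sum_eq_zero fun y _ => ?_
        ring
    simp_rw [e1]
    rw [sum_ite_mem, univ_inter]
    rfl
  have h3 : ∀ x y : Fin m, av F x y ≤ 1 - i x * i y + i x * i y * av F x y := by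
    intro x y
    have a1 := av_le_one F x y
    have a2 := av_nonneg F x y
    rw [hi, hi]
    split_ifs <;> linarith
  have h4 : ∑ x, ∑ y, i x * i y = (C.card : ℝ) ^ 2 := by
    rw [← h1, sq, sum_mul_sum]
  calc inn F univ = ∑ x, ∑ y, av F x y := rfl
    _ ≤ ∑ x, ∑ y, (1 - i x * i y + i x * i y * av F x y) :=
        sum_le_sum fun x _ => sum_le_sum fun y _ => h3 x y
    _ = m ^ 2 - (C.card : ℝ) ^ 2 + inn F C := by
        rw [h2]
        simp only [sum_add_distrib, sum_sub_distrib, h4]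
        rw [sum_const, sum_const, card_univ, Fintype.card_fin, nsmul_eq_mul, nsmul_eq_mul]
        ring

theorem sum_univ_overlay {n m : ℕ} {X : Fin n → Fin m → ℝ} (hX : Overlay X) (hn : 0 < n) (hm : 0 < m)
    (G : SimpleGraph (Fin n)) (F : SimpleGraph (Fin m)) :
    ∑ p : Fin n × Fin m, ∑ q : Fin n × Fin m, X p.1 p.2 * X q.1 q.2 * (av G p.1 q.1 - av F p.2 q.2) =
      inn G univ / n ^ 2 - inn F univ / m ^ 2 := by
  have hn' : (0 : ℝ) < n := by exact_mod_cast hn
  have hm' : (0 : ℝ) < m := by exact_mod_cast hm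
  have h1 := up_G hX G univ
  have h2 := up_F X F univ
  rw [univ_product_univ] at h1 h2
  have h3 : ∀ x : Fin m, (m : ℝ) * ∑ u ∈ univ, X u x = 1 := by
    intro x
    rw [hX.col x]
    field_simp
  simp_rw [h3] at h2
  simp only [one_mul] at h2
  have h4 : ∑ u : Fin n, ∑ v : Fin n, (1 / (n : ℝ)) * (1 / n) * av G u v = inn G univ / n ^ 2 := by
    unfold inn
    rw [sum_div]
    refine sum_congr rfl fun u _ => ?_
    rw [← mul_sum]
    field_simp
  rw [h4] at h1
  have h5 : ∑ p : Fin n × Fin m, ∑ q : Fin n × Fin m, X p.1 p.2 * X q.1 q.2 * av F p.2 q.2 =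
      inn F univ / m ^ 2 := by
    rw [eq_div_iff (by positivity)]
    unfold inn
    rw [h2]
    ring
  simp only [mul_sub, sum_sub_distrib]
  rw [h1, h5]

theorem near_dens {ρ δ : ℝ} {n : ℕ} {G : SimpleGraph (Fin n)} (h : nearC (dens ρ) δ n G) :
    dens (ρ - δ) n G := by
  obtain ⟨m, F, hF, X, hX, hcut⟩ := h
  unfold dens at hF ⊢
  rcases Nat.eq_zero_or_pos n with h0 | h0
  · subst h0
    have := inn_nonneg G univ
    simpa using this
  · have hm := hX.pos h0
    have hn' : (0 : ℝ) < n := by exact_mod_cast h0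
    have hm' : (0 : ℝ) < m := by exact_mod_cast hm
    have h1 := hcut univ univ
    rw [sum_univ_overlay hX h0 hm, abs_le] at h1
    have h2 : ρ ≤ inn F univ / m ^ 2 := by
      rw [le_div_iff₀ (by positivity)]
      exact hF
    have h3 : ρ - δ ≤ inn G univ / n ^ 2 := by linarith [h1.1]
    rwa [le_div_iff₀ (by positivity)] at h3

/-- the graph on `m` vertices with all pairs adjacent except those inside the first `k` vertices -/
def spl (m k : ℕ) : SimpleGraph (Fin m) where
  Adj x y := x ≠ y ∧ ¬ ((x : ℕ) < k ∧ (y : ℕ) < k)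
  symm := ⟨fun _ _ h => ⟨h.1.symm, fun h' => h.2 ⟨h'.2, h'.1⟩⟩⟩
  loopless := ⟨fun _ h => h.1 rfl⟩

theorem spl_av {m k : ℕ} {x y : Fin m} (h : ¬ y = x) (h' : ¬ ((x : ℕ) < k ∧ (y : ℕ) < k)) :
    av (spl m k) x y = 1 := by
  unfold av
  exact if_pos ⟨fun e => h e.symm, h'⟩

theorem card_lt {m k : ℕ} (hkm : k ≤ m) : (univ.filter (fun x : Fin m => (x : ℕ) < k)).card = k := by
  have h1 : (univ.filter (fun x : Fin m => (x : ℕ) < k)).card =
      ((range m).filter (fun x => x < k)).card := by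
    refine card_bij (fun x _ => (x : ℕ)) ?_ ?_ ?_
    · intro a ha
      rw [mem_filter] at ha
      exact mem_filter.2 ⟨mem_range.2 a.2, ha.2⟩
    · intro a _ b _ h
      exact Fin.ext h
    · intro b hb
      rw [mem_filter, mem_range] at hb
      exact ⟨⟨b, hb.1⟩, mem_filter.2 ⟨mem_univ _, hb.2⟩, rfl⟩
  rw [h1]
  have h2 : (range m).filter (fun x => x < k) = range k := by
    ext x
    rw [mem_filter, mem_range, mem_range]
    omega
  rw [h2, card_range]

theorem spl_inn (m k : ℕ) : inn (spl m k) (univ.filter (fun x : Fin m => (x : ℕ) < k)) = 0 := by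
  rw [inn_eq_zero_iff]
  intro x hx y hy _ h
  rw [mem_coe, mem_filter] at hx hy
  exact h.2 ⟨hx.2, hy.2⟩

theorem spl_deg {m k : ℕ} (hk : 0 < k) (hkm : k ≤ m) (x : Fin m) :
    ((m : ℝ) - k) ≤ ∑ y, av (spl m k) x y := by
  classical
  have h1 : ∀ y : Fin m, 1 - (if (y : ℕ) < k then (1 : ℝ) else 0) -
      (if y = x then (if (x : ℕ) < k then (0 : ℝ) else 1) else 0) +
      (if (x : ℕ) < k then (0 : ℝ) else if (y : ℕ) < k then 1 else 0) ≤ av (spl m k) x y := by
    intro y
    have hav := av_nonneg (spl m k) x y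
    by_cases hxy : y = x
    · rw [if_pos hxy, hxy] at *
      refine le_trans ?_ (av_nonneg _ _ _)
      split_ifs <;> norm_num
    · rw [if_neg hxy]
      by_cases hx : (x : ℕ) < k
      · by_cases hy : (y : ℕ) < k
        · rw [if_pos hx, if_pos hy]
          linarith
        · rw [if_pos hx, if_neg hy, spl_av hxy (fun h => hy h.2)]
          norm_num
      · rw [if_neg hx, spl_av hxy (fun h => hx h.1)]
        linarith
  have h2 := sum_le_sum fun y (_ : y ∈ (univ : Finset (Fin m))) => h1 y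
  rw [sum_add_distrib, sum_sub_distrib, sum_sub_distrib, sum_ite_eq', if_pos (mem_univ x)] at h2
  have h3 : ∑ y : Fin m, (if (y : ℕ) < k then (1 : ℝ) else 0) = k := by
    rw [← sum_filter, sum_const, nsmul_eq_mul, mul_one, card_lt hkm]
  rw [h3, sum_const, card_univ, Fintype.card_fin, nsmul_eq_mul, mul_one] at h2
  by_cases hx : (x : ℕ) < k
  · simp only [hx, if_true] at h2
    rw [sum_const_zero] at h2
    linarith
  · simp only [hx, if_false] at h2
    rw [h3] at h2
    have h4 : (1 : ℝ) ≤ k := by exact_mod_cast hk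
    linarith

theorem spl_inn_univ {m k : ℕ} (hkm : k ≤ m) :
    (m : ℝ) ^ 2 - k ^ 2 - m ≤ inn (spl m k) univ := by
  classical
  obtain ⟨i, hi⟩ : ∃ i : Fin m → ℝ, ∀ x, i x = if (x : ℕ) < k then 1 else 0 :=
    ⟨fun x => if (x : ℕ) < k then 1 else 0, fun _ => rfl⟩
  have h1 : ∑ x, i x = k := by
    simp_rw [hi]
    rw [← sum_filter, sum_const, nsmul_eq_mul, mul_one, card_lt hkm]
  have h3 : ∀ x y : Fin m, 1 - i x * i y - (if y = x then (1 : ℝ) else 0) ≤ av (spl m k) x y := by
    intro x y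
    rw [hi, hi]
    have hav := av_nonneg (spl m k) x y
    by_cases hxy : y = x
    · rw [if_pos hxy]
      refine le_trans ?_ hav
      split_ifs <;> norm_num
    · rw [if_neg hxy]
      by_cases hx : (x : ℕ) < k
      · by_cases hy : (y : ℕ) < k
        · rw [if_pos hx, if_pos hy]
          linarith
        · rw [if_neg hy, spl_av hxy (fun h => hy h.2)]
          norm_num
      · rw [if_neg hx, spl_av hxy (fun h => hx h.1)]
        norm_num
  have h4 : ∑ x, ∑ y, i x * i y = (k : ℝ) ^ 2 := by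
    rw [← h1, sq, sum_mul_sum]
  have h5 : ∑ x : Fin m, ∑ y : Fin m, (if y = x then (1 : ℝ) else 0) = m := by
    have h6 : ∀ x : Fin m, ∑ y : Fin m, (if y = x then (1 : ℝ) else 0) = 1 := by
      intro x
      rw [sum_ite_eq', if_pos (mem_univ x)]
    simp_rw [h6]
    rw [sum_const, card_univ, Fintype.card_fin, nsmul_eq_mul, mul_one]
  calc (m : ℝ) ^ 2 - k ^ 2 - m =
        ∑ x : Fin m, ∑ y : Fin m, (1 - i x * i y - (if y = x then (1 : ℝ) else 0)) := by
        simp only [sum_sub_distrib, h4, h5]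
        rw [sum_const, sum_const, card_univ, Fintype.card_fin, nsmul_eq_mul, nsmul_eq_mul]
        ring
    _ ≤ ∑ x, ∑ y, av (spl m k) x y := sum_le_sum fun x _ => sum_le_sum fun y _ => h3 x y

/-- dense split graphs with a large independent part -/
theorem exists_spl {ρ a : ℝ} (ha : 0 ≤ a) (h : a ^ 2 < 1 - ρ) (hρ : 0 ≤ ρ) :
    ∃ m k : ℕ, 0 < m ∧ 0 < k ∧ k ≤ m ∧ a ≤ k / m ∧ dens ρ m (spl m k) := by
  obtain ⟨m, hm⟩ := exists_nat_gt (4 / (1 - ρ - a ^ 2))
  have hq : 0 < 1 - ρ - a ^ 2 := by linarith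
  rw [div_lt_iff₀ hq] at hm
  have hm0 : 0 < m := by
    rcases Nat.eq_zero_or_pos m with h0 | h0
    · rw [h0, Nat.cast_zero, zero_mul] at hm
      linarith
    · exact h0
  have hm1 : (1 : ℝ) ≤ m := by exact_mod_cast hm0
  have hm' : (0 : ℝ) < m := by linarith
  have ha1 : a ≤ 1 := by nlinarith
  refine ⟨m, ⌊a * m⌋₊ + 1, hm0, Nat.succ_pos _, ?_, ?_, ?_⟩
  · have h1 : (⌊a * m⌋₊ : ℝ) ≤ a * m := Nat.floor_le (by positivity)
    have h2 : a * m < m := by
      have h3 : a < 1 := by nlinarith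
      nlinarith
    have h3 : (⌊a * m⌋₊ : ℝ) < m := by linarith
    have h4 : ⌊a * m⌋₊ < m := by exact_mod_cast h3
    omega
  · rw [le_div_iff₀ hm']
    push_cast
    exact (Nat.lt_floor_add_one (a * m)).le
  · have h1 : (⌊a * m⌋₊ : ℝ) ≤ a * m := Nat.floor_le (by positivity)
    have hkm : ⌊a * m⌋₊ + 1 ≤ m := by
      have h2 : a * m < m := by
        have h3 : a < 1 := by nlinarith
        nlinarith
      have h3 : (⌊a * m⌋₊ : ℝ) < m := by linarith
      have h4 : ⌊a * m⌋₊ < m := by exact_mod_cast h3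
      omega
    have h5 := spl_inn_univ hkm
    unfold dens
    refine le_trans ?_ h5
    have h6 : (((⌊a * m⌋₊ + 1 : ℕ)) : ℝ) ≤ a * m + 1 := by
      push_cast
      linarith
    have h7 : (((⌊a * m⌋₊ + 1 : ℕ)) : ℝ) ^ 2 ≤ (a * m + 1) ^ 2 :=
      pow_le_pow_left₀ (by positivity) h6 2
    have h8 : (a * m + 1) ^ 2 ≤ a ^ 2 * m ^ 2 + 3 * m := by nlinarith
    nlinarith

theorem theta_dens {ρ : ℝ} (h0 : 0 ≤ ρ) (h1 : ρ < 1) : NE (dens ρ) ∧ theta (dens ρ) = √(1 - ρ) := by
  have hNE : NE (dens ρ) := by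
    obtain ⟨m, k, hm, _, _, _, h2⟩ := exists_spl (ρ := ρ) (a := 0) (le_refl _) (by linarith) h0
    exact ⟨m, _, hm, h2⟩
  refine ⟨hNE, le_antisymm ?_ ?_⟩
  · have h2 : ∀ δ : ℝ, 0 < δ → theta (dens ρ) ≤ √(1 - ρ + δ) := by
      intro δ hδ
      refine (theta_le hNE hδ).trans (csSup_le ⟨0, zero_mem_ratios hNE hδ.le⟩ ?_)
      rintro x ⟨m, F, C, hm, hF, hC, rfl⟩
      have hm' : (0 : ℝ) < m := by exact_mod_cast hm
      refine Real.le_sqrt_of_sq_le ?_
      rw [div_pow, div_le_iff₀ (by positivity)]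
      have h3 := inn_univ_le F C
      unfold dens at hF
      linarith
    have h3 : Tendsto (fun δ : ℝ => √(1 - ρ + δ)) (𝓝[>] 0) (𝓝 (√(1 - ρ + 0))) := by
      have h4 : ContinuousAt (fun δ : ℝ => √(1 - ρ + δ)) 0 := by fun_prop
      exact h4.tendsto.mono_left nhdsWithin_le_nhds
    rw [add_zero] at h3
    refine ge_of_tendsto h3 ?_
    filter_upwards [self_mem_nhdsWithin] with δ hδ
    exact h2 δ hδ
  · refine le_csInf (theta_set_ne _) ?_
    rintro x ⟨δ, hδ, rfl⟩
    refine le_of_forall_lt fun a ha => ?_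
    rcases lt_or_ge a 0 with h2 | h2
    · exact lt_of_lt_of_le h2 (sp_nonneg hNE (le_of_lt hδ))
    · obtain ⟨b, hab, hb⟩ := exists_between ha
      have hb0 : 0 ≤ b := h2.trans hab.le
      have h3 : b ^ 2 < 1 - ρ := by
        have h4 := Real.sq_sqrt (show 0 ≤ 1 - ρ by linarith)
        nlinarith [Real.sqrt_nonneg (1 - ρ)]
      obtain ⟨m, k, hm, hk, hkm, hbk, hd⟩ := exists_spl hb0 h3 h0
      refine lt_of_lt_of_le hab (hbk.trans ?_)
      refine le_csSup (ratios_bddAbove _ _) ⟨m, spl m k, univ.filter (fun x : Fin m => (x : ℕ) < k),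
        hm, hd, ?_, by rw [card_lt hkm]⟩
      rw [spl_inn]
      exact mul_nonneg (le_of_lt hδ) (by positivity)

/-- the law for graphs of given density -/
theorem law_dens {ρ : ℝ} (h0 : 0 ≤ ρ) (h1 : ρ < 1) :
    1 + eps (dens ρ) = (1 + eps allG) ^ √(1 - ρ) := by
  have hA := eps_nonneg allG
  obtain ⟨hNE, hθ⟩ := theta_dens h0 h1
  apply le_antisymm
  · rw [← hθ]
    exact up_self hNE
  · have h2 : Tendsto (fun δ : ℝ => (1 + eps allG) ^ √(1 - (ρ + δ))) (𝓝[>] 0)
        (𝓝 ((1 + eps allG) ^ √(1 - (ρ + 0)))) := by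
      have h3 : ContinuousAt (fun δ : ℝ => (1 + eps allG) ^ √(1 - (ρ + δ))) 0 := by
        refine ContinuousAt.rpow continuousAt_const (by fun_prop) ?_
        left
        have : (0 : ℝ) < 1 + eps allG := by linarith
        exact this.ne'
      exact h3.tendsto.mono_left nhdsWithin_le_nhds
    rw [add_zero] at h2
    refine le_of_tendsto h2 ?_
    filter_upwards [Ioo_mem_nhdsGT (show (0 : ℝ) < 1 - ρ by linarith)] with δ hδ
    obtain ⟨hNE', hθ'⟩ := theta_dens (ρ := ρ + δ) (by linarith [hδ.1]) (by linarith [hδ.2])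
    rw [← hθ']
    have h4 := low_main hNE' hδ.1
    have h5 : eps (nearE (dens (ρ + δ)) δ) ≤ eps (dens ρ) := by
      refine eps_mono fun n G hG => ?_
      have h6 := near_dens (nearE_le hG)
      rwa [add_sub_cancel_right] at h6
    linarith

end Pool.Agent.H21.DL
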