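import Pool.Agent.H21.DL.Poly

/-!
# The gadget is close to `F`

`F` is a graph on `m` vertices, `C` a set of `k` vertices, `σ` a permutation of the vertices which
moves `C` to the first `k` places, and `Fm` the matrix of `F` after this permutation. The vertex `i`
of the gadget is overlaid with the vertex `σ⁻¹ (i / t)` of `F`. Outside of the pairs of the first
`k t` vertices only the cliques and the attached vertices matter (`O(1)` per vertex); inside, the
gadget has `O(1)` edges per vertex and the blow-up has `t² inn F C` ordered edges.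
-/

set_option autoImplicit false

namespace Pool.Agent.H21.DL

open Finset Pool.Agent.H80.Poly Pool.Agent.H66.MB

/-- 0/1 value -/
def bv (b : Bool) : ℝ := if b = true then 1 else 0

theorem bv_nonneg (b : Bool) : 0 ≤ bv b := by
  unfold bv
  split_ifs
  · exact zero_le_one
  · exact le_refl _

theorem exists_perm {m : ℕ} (C : Finset (Fin m)) :
    ∃ σ : Equiv.Perm (Fin m), ∀ x, x ∈ C ↔ (σ x : ℕ) < C.card := by
  have hcm : C.card ≤ m := by
    have := card_le_univ C
    rwa [Fintype.card_fin] at this
  have hc : Fintype.card {x : Fin m // x ∈ C} = Fintype.card {x : Fin m // (x : ℕ) < C.card} := by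
    rw [Fintype.card_coe, Fintype.card_subtype]
    have h1 : (univ.filter (fun x : Fin m => (x : ℕ) < C.card)).card =
        ((range m).filter (fun x => x < C.card)).card := by
      refine card_bij (fun x _ => (x : ℕ)) ?_ ?_ ?_
      · intro a ha
        rw [mem_filter] at ha
        exact mem_filter.2 ⟨mem_range.2 a.2, ha.2⟩
      · intro a _ b _ h
        exact Fin.ext h
      · intro b hb
        rw [mem_filter, mem_range] at hb
        exact ⟨⟨b, hb.1⟩, mem_filter.2 ⟨mem_univ _, hb.2⟩, rfl⟩
    rw [h1]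
    have h2 : (range m).filter (fun x => x < C.card) = range C.card := by
      ext x
      rw [mem_filter, mem_range, mem_range]
      omega
    rw [h2, card_range]
  let e : {x : Fin m // x ∈ C} ≃ {x : Fin m // (x : ℕ) < C.card} := Fintype.equivOfCardEq hc
  refine ⟨e.extendSubtype, fun x => ⟨fun h => e.extendSubtype_mem x h, fun h => ?_⟩⟩
  by_contra hx
  exact e.extendSubtype_not_mem x hx h

/-- sum over the first `k` parts -/
theorem sum_parts (f : ℕ → ℝ) (t k : ℕ) : ∑ i ∈ range (k * t), f (i / t) = t * ∑ a ∈ range k, f a := by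
  rcases Nat.eq_zero_or_pos t with ht | ht
  · subst ht
    simp
  induction k with
  | zero => simp
  | succ k ih =>
    rw [Nat.succ_mul, sum_range_add, ih, sum_range_succ, mul_add]
    congr 1
    have h1 : ∀ j ∈ range t, f ((k * t + j) / t) = f k := by
      intro j hj
      rw [mem_range] at hj
      congr 1
      rw [Nat.mul_comm, Nat.mul_add_div ht, Nat.div_eq_of_lt hj, Nat.add_zero]
    rw [sum_congr rfl h1, sum_const, card_range, nsmul_eq_mul]

theorem cnt_clique (n a q r : ℕ) (hr : 0 < r) :
    ((range n).filter (fun j => a ≤ j ∧ (j - a) / r = q)).card ≤ r := by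
  have h1 : (range n).filter (fun j => a ≤ j ∧ (j - a) / r = q) ⊆ Ico (a + r * q) (a + r * q + r) := by
    intro j hj
    rw [mem_filter] at hj
    rw [mem_Ico]
    obtain ⟨-, h2, h3⟩ := hj
    have h4 := Nat.div_add_mod (j - a) r
    have h5 := Nat.mod_lt (j - a) hr
    rw [h3] at h4
    generalize r * q = w at h4 ⊢
    omega
  have h2 := card_le_card h1
  rw [Nat.card_Ico] at h2
  omega

/-- the pointwise bound -/
theorem ge_diff {Fm M : Mat} (hF : Valid Fm) (k r t i j : ℕ) :
    |bv (ge Fm M k r t i j) - bv (adj Fm (i / t) (j / t))| ≤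
      (if i < k * t ∧ j < k * t then bv (adj Fm (i / t) (j / t)) else 0) + bv (adj M i j) +
      (if k * t ≤ j ∧ (j - k * t) / r = i - M.length then 1 else 0) +
      (if j = M.length + (i - k * t) / r then 1 else 0) +
      (if k * t ≤ j ∧ (j - k * t) / r = (i - k * t) / r then 1 else 0) := by
  have hz := bv_nonneg (adj M i j)
  have i1 : (0 : ℝ) ≤ if i < k * t ∧ j < k * t then bv (adj Fm (i / t) (j / t)) else 0 := by
    split_ifs
    · exact bv_nonneg _
    · exact le_refl _
  have i2 : ∀ p : Prop, ∀ [Decidable p], (0 : ℝ) ≤ if p then 1 else 0 := by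
    intro p _
    split_ifs
    · exact zero_le_one
    · exact le_refl _
  have i3 := i2 (k * t ≤ j ∧ (j - k * t) / r = i - M.length)
  have i4 := i2 (j = M.length + (i - k * t) / r)
  have i5 := i2 (k * t ≤ j ∧ (j - k * t) / r = (i - k * t) / r)
  -- adding a condition
  have key : ∀ (x : Bool) (p : Prop) [Decidable p],
      |bv (x || decide p) - bv x| ≤ if p then 1 else 0 := by
    intro x p _
    by_cases hp : p
    · rw [decide_eq_true hp, Bool.or_true, if_pos hp]
      unfold bv
      cases x <;> simp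
    · rw [decide_eq_false hp, Bool.or_false, if_neg hp, sub_self, abs_zero]
  unfold ge
  by_cases h1 : i < k * t
  · by_cases h2 : j < k * t
    · rw [if_pos h1, if_pos h2, if_pos ⟨h1, h2⟩]
      have h3 : |bv (adj M i j) - bv (adj Fm (i / t) (j / t))| ≤
          bv (adj M i j) + bv (adj Fm (i / t) (j / t)) := by
        rw [abs_le]
        have := bv_nonneg (adj Fm (i / t) (j / t))
        constructor <;> linarith
      linarith
    · rw [if_pos h1, if_neg h2]
      have h3 := key (adj Fm (i / t) (j / t)) (i = M.length + (j - k * t) / r)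
      have h4 : (if i = M.length + (j - k * t) / r then (1 : ℝ) else 0) ≤
          if k * t ≤ j ∧ (j - k * t) / r = i - M.length then 1 else 0 := by
        by_cases h5 : i = M.length + (j - k * t) / r
        · have h6 : k * t ≤ j ∧ (j - k * t) / r = i - M.length := by
            refine ⟨by omega, ?_⟩
            rw [h5, Nat.add_sub_cancel_left]
          rw [if_pos h5, if_pos h6]
        · rw [if_neg h5]
          exact i3
      linarith
  · by_cases h2 : j < k * t
    · rw [if_neg h1, if_pos h2]
      have h3 := key (adj Fm (i / t) (j / t)) (j = M.length + (i - k * t) / r)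
      linarith
    · rw [if_neg h1, if_neg h2]
      by_cases h3 : i = j
      · subst h3
        have h4 : |bv (decide (i ≠ i) && (adj Fm (i / t) (i / t) ||
            decide ((i - k * t) / r = (i - k * t) / r))) - bv (adj Fm (i / t) (i / t))| = 0 := by
          rw [hF.2.2]
          simp
        rw [h4]
        positivity
      · have h4 : decide (i ≠ j) = true := decide_eq_true h3
        rw [h4, Bool.true_and]
        have h5 := key (adj Fm (i / t) (j / t)) ((i - k * t) / r = (j - k * t) / r)
        have h6 : (if (i - k * t) / r = (j - k * t) / r then (1 : ℝ) else 0) ≤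
            if k * t ≤ j ∧ (j - k * t) / r = (i - k * t) / r then 1 else 0 := by
          by_cases h7 : (i - k * t) / r = (j - k * t) / r
          · rw [if_pos h7, if_pos ⟨by omega, h7.symm⟩]
          · rw [if_neg h7]
            exact i5
        linarith

theorem sum_bv_adj {M : Mat} (hM : Valid M) {D : ℕ} (hD : DegLe M D) (n i : ℕ) :
    ∑ j ∈ range n, bv (adj M i j) ≤ D := by
  have h1 : ∑ j ∈ range n, bv (adj M i j) = (((range n).filter (fun j => adj M i j = true)).card : ℝ) := by
    unfold bv
    rw [← sum_filter, sum_const, nsmul_eq_mul, mul_one]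
  rw [h1]
  by_cases hi : i < M.length
  · have h2 := hD i hi
    have h3 : ((range n).filter (fun j => adj M i j = true)).card ≤ dg M (List.range M.length) i := by
      unfold dg
      have h4 : (((List.range M.length).filter (fun u => adj M i u)).toFinset).card ≤
          ((List.range M.length).filter (fun u => adj M i u)).length := List.toFinset_card_le _
      refine le_trans (card_le_card ?_) h4
      intro j hj
      rw [mem_filter] at hj
      rw [List.mem_toFinset, List.mem_filter, List.mem_range]
      exact ⟨(adj_lt hM hj.2).2, hj.2⟩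
    exact_mod_cast h3.trans h2
  · have h2 : (range n).filter (fun j => adj M i j = true) = ∅ := by
      apply filter_eq_empty_iff.2
      intro j _ h
      exact hi (adj_lt hM h).1
    rw [h2, card_empty]
    simp

/-- the sum over all pairs -/
theorem sum_diff {Fm M : Mat} (hF : Valid Fm) (hM : Valid M) {D : ℕ} (hD : DegLe M D)
    {m k r t : ℕ} (hkm : k ≤ m) (hr : 0 < r) :
    ∑ i ∈ range (m * t), ∑ j ∈ range (m * t),
      |bv (ge Fm M k r t i j) - bv (adj Fm (i / t) (j / t))| ≤
      (D + 2 * r + 1) * (m * t) +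
        t ^ 2 * ∑ a ∈ range k, ∑ b ∈ range k, bv (adj Fm a b) := by
  have hktm : k * t ≤ m * t := Nat.mul_le_mul_right t hkm
  have hrow : ∀ i ∈ range (m * t), ∑ j ∈ range (m * t),
      |bv (ge Fm M k r t i j) - bv (adj Fm (i / t) (j / t))| ≤
      (D + 2 * r + 1) + ∑ j ∈ range (m * t),
        if i < k * t ∧ j < k * t then bv (adj Fm (i / t) (j / t)) else 0 := by
    intro i _
    refine (sum_le_sum fun j _ => ge_diff (M := M) hF k r t i j).trans ?_
    rw [sum_add_distrib, sum_add_distrib, sum_add_distrib, sum_add_distrib]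
    have h1 := sum_bv_adj hM hD (m * t) i
    have h2 : ∑ j ∈ range (m * t), (if k * t ≤ j ∧ (j - k * t) / r = i - M.length then (1 : ℝ) else 0)
        ≤ r := by
      rw [← sum_filter, sum_const, nsmul_eq_mul, mul_one]
      exact_mod_cast cnt_clique _ _ _ _ hr
    have h3 : ∑ j ∈ range (m * t), (if j = M.length + (i - k * t) / r then (1 : ℝ) else 0) ≤ 1 := by
      rw [sum_ite_eq']
      split_ifs
      · exact le_refl _
      · exact zero_le_one
    have h4 : ∑ j ∈ range (m * t),
        (if k * t ≤ j ∧ (j - k * t) / r = (i - k * t) / r then (1 : ℝ) else 0) ≤ r := by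
      rw [← sum_filter, sum_const, nsmul_eq_mul, mul_one]
      exact_mod_cast cnt_clique _ _ _ _ hr
    linarith
  refine (sum_le_sum hrow).trans ?_
  rw [sum_add_distrib, sum_const, card_range, nsmul_eq_mul, Nat.cast_mul]
  have h5 : ∑ i ∈ range (m * t), ∑ j ∈ range (m * t),
      (if i < k * t ∧ j < k * t then bv (adj Fm (i / t) (j / t)) else 0) =
      t ^ 2 * ∑ a ∈ range k, ∑ b ∈ range k, bv (adj Fm a b) := by
    have h6 : ∀ (g : ℕ → ℝ), ∑ i ∈ range (m * t), (if i < k * t then g i else 0) =
        ∑ i ∈ range (k * t), g i := by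
      intro g
      rw [← sum_filter]
      congr 1
      ext x
      rw [mem_filter, mem_range, mem_range]
      omega
    have h7 : ∀ i j : ℕ, (if i < k * t ∧ j < k * t then bv (adj Fm (i / t) (j / t)) else 0) =
        if i < k * t then (if j < k * t then bv (adj Fm (i / t) (j / t)) else 0) else 0 := by
      intro i j
      by_cases h8 : i < k * t
      · by_cases h9 : j < k * t
        · rw [if_pos ⟨h8, h9⟩, if_pos h8, if_pos h9]
        · rw [if_neg (fun h => h9 h.2), if_pos h8, if_neg h9]
      · rw [if_neg (fun h => h8 h.1), if_neg h8]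
    have h8 : ∀ i : ℕ, ∑ j ∈ range (m * t),
        (if i < k * t ∧ j < k * t then bv (adj Fm (i / t) (j / t)) else 0) =
        if i < k * t then (t * ∑ b ∈ range k, bv (adj Fm (i / t) b)) else 0 := by
      intro i
      by_cases h9 : i < k * t
      · rw [if_pos h9, ← sum_parts (fun b => bv (adj Fm (i / t) b)) t k, ← h6]
        refine sum_congr rfl fun j _ => ?_
        rw [h7, if_pos h9]
      · rw [if_neg h9]
        refine sum_eq_zero fun j _ => ?_
        rw [if_neg (fun h => h9 h.1)]
    simp_rw [h8]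
    rw [h6, sum_parts (fun a => (t : ℝ) * ∑ b ∈ range k, bv (adj Fm a b)) t k, ← mul_sum]
    ring
  rw [h5]
  have h9 : (m : ℝ) * t * (D + 2 * r + 1) = (D + 2 * r + 1) * (m * t) := by ring
  rw [h9]

/-- the gadget is close to `F` -/
theorem edit_of {m L : ℕ} (hm : 0 < m) (F : SimpleGraph (Fin m)) (C : Finset (Fin m))
    (σ : Equiv.Perm (Fin m)) (hσ : ∀ x, x ∈ C ↔ (σ x : ℕ) < C.card) {Fm M : Mat} (hF : Valid Fm)
    (hFm : ∀ x y, adj Fm (σ x) (σ y) = true ↔ F.Adj x y) (hM : Valid M) {D : ℕ} (hD : DegLe M D)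
    {r t : ℕ} (hr : 0 < r) (ht : 0 < t) (hL : L = m * t) (G : SimpleGraph (Fin L))
    (hG : ∀ u v : Fin L, G.Adj u v ↔ ge Fm M C.card r t u v = true) :
    EditLe G F ((D + 2 * r + 1) / (m * t) + inn F C / m ^ 2) := by
  subst hL
  have hcm : C.card ≤ m := by
    have := card_le_univ C
    rwa [Fintype.card_fin] at this
  have hm' : (0 : ℝ) < m := by exact_mod_cast hm
  have ht' : (0 : ℝ) < t := by exact_mod_cast ht
  have hmt' : (0 : ℝ) < (m : ℝ) * t := mul_pos hm' ht'
  have hpl : ∀ u : Fin (m * t), (u : ℕ) / t < m := fun u => by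
    rw [Nat.div_lt_iff_lt_mul ht]
    exact u.2
  obtain ⟨ρ, hρ⟩ : ∃ ρ : Fin (m * t) → Fin m, ρ = fun u : Fin (m * t) => σ.symm ⟨(u : ℕ) / t, hpl u⟩ :=
    ⟨_, rfl⟩
  have hσρ : ∀ u, (σ (ρ u) : ℕ) = (u : ℕ) / t := by
    intro u
    rw [hρ]
    simp
  obtain ⟨X, hX⟩ : ∃ X : Fin (m * t) → Fin m → ℝ,
      X = fun u x => if ρ u = x then 1 / ((m : ℝ) * t) else 0 := ⟨_, rfl⟩
  have hXs : ∀ (u : Fin (m * t)) (f : Fin m → ℝ), ∑ x, X u x * f x = 1 / ((m : ℝ) * t) * f (ρ u) := by
    intro u f
    rw [hX]
    simp only [ite_mul, zero_mul]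
    rw [sum_ite_eq]
    simp
  have hov : Overlay X := by
    refine ⟨?_, ?_, ?_⟩
    · intro u x
      rw [hX]
      dsimp only
      split_ifs
      · positivity
      · exact le_refl _
    · intro u
      have h1 := hXs u (fun _ => 1)
      simp only [mul_one] at h1
      rw [h1, Nat.cast_mul]
    · intro x
      rw [hX]
      dsimp only
      have h1 : ∀ u : Fin (m * t), (if ρ u = x then 1 / ((m : ℝ) * t) else 0) =
          (fun a : ℕ => if a = (σ x : ℕ) then 1 / ((m : ℝ) * t) else 0) ((u : ℕ) / t) := by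
        intro u
        dsimp only
        have h2 : ρ u = x ↔ (u : ℕ) / t = (σ x : ℕ) := by
          rw [← hσρ u]
          constructor
          · intro h
            rw [h]
          · intro h
            exact σ.injective (Fin.ext h)
        by_cases h3 : ρ u = x
        · rw [if_pos h3, if_pos (h2.1 h3)]
        · rw [if_neg h3, if_neg (fun h => h3 (h2.2 h))]
      rw [sum_congr rfl fun u _ => h1 u,
        Fin.sum_univ_eq_sum_range (fun i : ℕ => (fun a : ℕ => if a = (σ x : ℕ) then
          1 / ((m : ℝ) * t) else 0) (i / t)) (m * t),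
        sum_parts (fun a : ℕ => if a = (σ x : ℕ) then 1 / ((m : ℝ) * t) else 0) t m,
        sum_ite_eq', if_pos (mem_range.2 (σ x).2)]
      field_simp
  refine ⟨X, hov, ?_⟩
  -- the sum
  have h1 : ∑ p : Fin (m * t) × Fin m, ∑ q : Fin (m * t) × Fin m,
      X p.1 p.2 * X q.1 q.2 * |av G p.1 q.1 - av F p.2 q.2| =
      (1 / ((m : ℝ) * t)) ^ 2 * ∑ u : Fin (m * t), ∑ v : Fin (m * t),
        |av G u v - av F (ρ u) (ρ v)| := by
    rw [Fintype.sum_prod_type, mul_sum]
    refine sum_congr rfl fun u _ => ?_
    have h2 : ∀ x : Fin m, ∑ q : Fin (m * t) × Fin m, X u x * X q.1 q.2 *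
        |av G u q.1 - av F x q.2| =
        X u x * (1 / ((m : ℝ) * t) * ∑ v : Fin (m * t), |av G u v - av F x (ρ v)|) := by
      intro x
      rw [Fintype.sum_prod_type, mul_sum, mul_sum]
      refine sum_congr rfl fun v _ => ?_
      rw [← hXs v (fun y => |av G u v - av F x y|), mul_sum]
      refine sum_congr rfl fun y _ => ?_
      ring
    simp only [h2]
    rw [hXs u (fun x => 1 / ((m : ℝ) * t) * ∑ v : Fin (m * t), |av G u v - av F x (ρ v)|)]
    ring
  have h3 : ∀ u v : Fin (m * t), |av G u v - av F (ρ u) (ρ v)| =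
      |bv (ge Fm M C.card r t u v) - bv (adj Fm ((u : ℕ) / t) ((v : ℕ) / t))| := by
    intro u v
    have e1 : av G u v = bv (ge Fm M C.card r t u v) := by
      unfold av bv
      by_cases h : G.Adj u v
      · rw [if_pos h, if_pos ((hG u v).1 h)]
      · rw [if_neg h, if_neg (fun h' => h ((hG u v).2 h'))]
    have e2 : av F (ρ u) (ρ v) = bv (adj Fm ((u : ℕ) / t) ((v : ℕ) / t)) := by
      have h := hFm (ρ u) (ρ v)
      rw [hσρ, hσρ] at h
      unfold av bv
      by_cases h' : F.Adj (ρ u) (ρ v)
      · rw [if_pos h', if_pos (h.2 h')]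
      · rw [if_neg h', if_neg (fun h'' => h' (h.1 h''))]
    rw [e1, e2]
  have h4 : ∑ u : Fin (m * t), ∑ v : Fin (m * t), |av G u v - av F (ρ u) (ρ v)| =
      ∑ i ∈ range (m * t), ∑ j ∈ range (m * t),
        |bv (ge Fm M C.card r t i j) - bv (adj Fm (i / t) (j / t))| := by
    rw [← Fin.sum_univ_eq_sum_range (fun i : ℕ => ∑ j ∈ range (m * t),
      |bv (ge Fm M C.card r t i j) - bv (adj Fm (i / t) (j / t))|) (m * t)]
    refine sum_congr rfl fun u _ => ?_
    rw [← Fin.sum_univ_eq_sum_range (fun j : ℕ =>
      |bv (ge Fm M C.card r t u j) - bv (adj Fm ((u : ℕ) / t) (j / t))|) (m * t)]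
    exact sum_congr rfl fun v _ => h3 u v
  have h5 : inn F C = ∑ a ∈ range C.card, ∑ b ∈ range C.card, bv (adj Fm a b) := by
    have h6 : ∀ g : ℕ → ℝ, ∑ x ∈ C, g (σ x) = ∑ a ∈ range C.card, g a := by
      intro g
      refine sum_bij (fun x _ => (σ x : ℕ)) ?_ ?_ ?_ ?_
      · intro x hx
        exact mem_range.2 ((hσ x).1 hx)
      · intro x _ y _ h
        exact σ.injective (Fin.ext h)
      · intro b hb
        have hb' := mem_range.1 hb
        refine ⟨σ.symm ⟨b, lt_of_lt_of_le hb' hcm⟩, ?_, ?_⟩
        · rw [hσ]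
          simpa using hb'
        · simp
      · intro x _
        rfl
    unfold inn
    rw [← h6 (fun a => ∑ b ∈ range C.card, bv (adj Fm a b))]
    refine sum_congr rfl fun x _ => ?_
    rw [← h6 (fun b => bv (adj Fm (σ x) b))]
    refine sum_congr rfl fun y _ => ?_
    have h := hFm x y
    unfold av bv
    by_cases h' : F.Adj x y
    · rw [if_pos h', if_pos (h.2 h')]
    · rw [if_neg h', if_neg (fun h'' => h' (h.1 h''))]
  rw [h1, h4]
  have h6 := sum_diff (Fm := Fm) (M := M) hF hM hD (t := t) hcm hr
  rw [← h5] at h6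
  calc (1 / ((m : ℝ) * t)) ^ 2 * ∑ i ∈ range (m * t), ∑ j ∈ range (m * t),
        |bv (ge Fm M C.card r t i j) - bv (adj Fm (i / t) (j / t))|
      ≤ (1 / ((m : ℝ) * t)) ^ 2 * ((D + 2 * r + 1) * (m * t) + t ^ 2 * inn F C) :=
        mul_le_mul_of_nonneg_left h6 (by positivity)
    _ = (D + 2 * r + 1) / (m * t) + inn F C / m ^ 2 := by
        field_simp

end Pool.Agent.H21.DL
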