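import Pool.Agent.H21.DL.Basic

/-!
# A general lower bound: reductions from graphs of bounded degree

As `low` in `H66/MB/LowM`: branching on degrees larger than `D`, then the reduction `g`.
`itm_of_inTime`: a class of graphs as a class of matrices.
-/

set_option autoImplicit false

namespace Pool.Agent.H21.DL

open Pool.Agent.H80.Poly Pool.Agent.H66.MB

/-- the matrices of the graphs of the class `𝒢` -/
def matC (𝒢 : Cls) (M : Mat) : Prop := ∃ G : SimpleGraph (Fin M.length), mat G = M ∧ 𝒢 M.length G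

theorem itm_of_inTime {𝒢 : Cls} {c : ℝ} (hc : 1 ≤ c) (h : InTime 𝒢 c) : ITM (matC 𝒢) c := by
  obtain ⟨p, C, hp⟩ := h
  obtain ⟨q, K, hK, hq⟩ := clean_sol p
  refine ⟨q, K * (|C| + 1), by positivity, fun M hM hA => ?_⟩
  obtain ⟨G, hG, hGG⟩ := hA
  have h1 := hp M.length G hGG
  rw [runs_iff, hG] at h1
  refine (hq M _ h1).mono ?_
  have h2 : 1 ≤ c ^ M.length := one_le_pow₀ hc
  have h3 : C * c ^ M.length + 1 ≤ (|C| + 1) * c ^ M.length := by
    have h4 : C * c ^ M.length ≤ |C| * c ^ M.length :=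
      mul_le_mul_of_nonneg_right (le_abs_self C) (by positivity)
    linarith
  calc K * (C * c ^ M.length + 1) ≤ K * ((|C| + 1) * c ^ M.length) :=
        mul_le_mul_of_nonneg_left h3 hK
    _ = K * (|C| + 1) * c ^ M.length := by ring

private theorem lowm_mono {𝒜 : Mat → Prop} {b b' : ℝ} (h0 : 0 ≤ b) (hb : b ≤ b') (h : ITM 𝒜 b) :
    ITM 𝒜 b' := by
  obtain ⟨p, C, hC, hp⟩ := h
  refine ⟨p, C, hC, fun M hM hA => ?_⟩
  obtain ⟨v, s, h1, h2, h3⟩ := hp M hM hA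
  refine ⟨v, s, h1, h2, h3.trans ?_⟩
  exact mul_le_mul_of_nonneg_left (pow_le_pow_left₀ h0 hb _) hC

theorem lowG (D : ℕ) (ρ : ℝ) (hρ1 : 1 ≤ ρ) (hρ : ρ ^ (D + 1) + 1 ≤ ρ ^ (D + 2)) {𝒬 : Mat → Prop}
    (g : Mat → Mat) (hg : PolyTime g) (y : ℝ) (hy0 : 0 ≤ y) (K : ℕ)
    (hgM : ∀ M, Valid M → DegLe M D → Valid (g M) ∧ 𝒬 (g M) ∧ ((g M).length : ℝ) ≤ y * M.length + K ∧
      ∀ b, MaxV (g M) b → MaxV M (b.take M.length))
    (b : ℝ) (hb : 1 ≤ b) (h : ITM 𝒬 b) (η : ℝ) (hη : 0 < η) :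
    ITM (fun _ => True) (max ρ (b ^ y) * (1 + η)) := by
  set θ : ℝ := min η 1 with hθ
  have hθ0 : 0 < θ := lt_min hη one_pos
  have hθ1 : θ ≤ 1 := min_le_right _ _
  have hθη : θ ≤ η := min_le_left _ _
  have hby : 1 ≤ b ^ y := Real.one_le_rpow hb hy0
  have hred := reduce (𝒜 := fun M => DegLe M D) (𝒬 := 𝒬) g hg y hy0 K
    (fun M hM hA => hgM M hM hA) b hb h (θ / 2) (by linarith)
  set b' : ℝ := max ρ (b ^ y * (1 + θ / 2)) with hb'
  have hρb : ρ ≤ b' := le_max_left _ _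
  have hb1 : 1 ≤ b' := hρ1.trans hρb
  have hI : ITM (fun M => DegLe M D) b' :=
    lowm_mono (by positivity) (le_max_right _ _) hred
  have hbD : b' ^ (D + 1) + 1 ≤ b' ^ (D + 2) := by
    have e1 : ρ ^ (D + 1) ≤ b' ^ (D + 1) := pow_le_pow_left₀ (by linarith) hρb _
    have e2 : ρ ^ (D + 1) * (ρ - 1) ≤ b' ^ (D + 1) * (b' - 1) :=
      mul_le_mul e1 (by linarith) (by linarith) (by positivity)
    have e3 : 1 ≤ ρ ^ (D + 1) * (ρ - 1) := by
      rw [pow_succ ρ (D + 1)] at hρ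
      linarith
    rw [pow_succ b' (D + 1)]
    linarith
  obtain ⟨A0, c, hc, hA⟩ := hI
  obtain ⟨p, P, hp⟩ := appB D b' hb1 hbD A0 c hc hA
  obtain ⟨a, ha, haP⟩ := poly_le P (1 + θ / 3) (by linarith)
  have hm : b' * (1 + θ / 3) ≤ max ρ (b ^ y) * (1 + η) := by
    have m0 : ρ ≤ max ρ (b ^ y) := le_max_left _ _
    have m1 : b ^ y ≤ max ρ (b ^ y) := le_max_right _ _
    have m2 : 0 ≤ max ρ (b ^ y) := by linarith
    have e1 : b' ≤ max ρ (b ^ y) * (1 + θ / 2) := by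
      apply max_le
      · nlinarith
      · exact mul_le_mul_of_nonneg_right m1 (by linarith)
    calc b' * (1 + θ / 3) ≤ max ρ (b ^ y) * (1 + θ / 2) * (1 + θ / 3) :=
          mul_le_mul_of_nonneg_right e1 (by linarith)
      _ = max ρ (b ^ y) * ((1 + θ / 2) * (1 + θ / 3)) := by ring
      _ ≤ max ρ (b ^ y) * (1 + η) := by
          refine mul_le_mul_of_nonneg_left ?_ m2
          nlinarith
  refine ⟨p, 2 * (c + a + c), by positivity, fun M hM _ => ?_⟩
  obtain ⟨v, s, e1, e2, e3⟩ := hp M hM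
  refine ⟨v, s, e1, e2, e3.trans ?_⟩
  set n := M.length with hn
  have hR : 1 ≤ (1 + θ / 3) ^ n := one_le_pow₀ (by linarith)
  have hB : 0 ≤ b' ^ n := by positivity
  have h7 := haP n
  have h8 : c ≤ c * (1 + θ / 3) ^ n := le_mul_of_one_le_right hc hR
  calc 2 * b' ^ n * (c + (P.eval n : ℕ) + c)
      ≤ 2 * b' ^ n * (c * (1 + θ / 3) ^ n + a * (1 + θ / 3) ^ n + c * (1 + θ / 3) ^ n) := by
        refine mul_le_mul_of_nonneg_left ?_ (by positivity)
        linarith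
    _ = 2 * (c + a + c) * (b' * (1 + θ / 3)) ^ n := by
        rw [mul_pow]
        ring
    _ ≤ 2 * (c + a + c) * (max ρ (b ^ y) * (1 + η)) ^ n := by
        refine mul_le_mul_of_nonneg_left ?_ (by positivity)
        exact pow_le_pow_left₀ (by positivity) hm n

end Pool.Agent.H21.DL
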