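import Pool.Agent.H21.DL.Dist
import Pool.Agent.H21.DL.LowG

/-!
# The lower bound

Let `F ∈ 𝓕` have `m` vertices and let `C` be a set of `k > 0` of them with `inn F C ≤ δ m² / 2`.
The gadget of a graph of degree at most `D` is at edit distance at most `δ` from `F` if the number
`t` of copies is large, and it has `m t = m r N / (k r - (m - k)) + O(1)` vertices. With `lowG` and
`η → 0`, `r → ∞` this gives `1 + eps allG ≤ (1 + eps (nearE 𝓕 δ)) ^ (m / k)`.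
-/

set_option autoImplicit false

namespace Pool.Agent.H21.DL

open Finset Pool.Agent.H80.Poly Pool.Agent.H66.MB Filter Topology

theorem EditLe.mono {n m : ℕ} {G : SimpleGraph (Fin n)} {F : SimpleGraph (Fin m)} {δ δ' : ℝ}
    (h : EditLe G F δ) (hδ : δ ≤ δ') : EditLe G F δ' := by
  obtain ⟨X, hX, h1⟩ := h
  exact ⟨X, hX, h1.trans hδ⟩

theorem red_near {𝓕 : Cls} {m : ℕ} (hm : 0 < m) {F : SimpleGraph (Fin m)} (hF : 𝓕 m F)
    (C : Finset (Fin m)) {δ : ℝ} (hC : inn F C ≤ δ / 2 * m ^ 2)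
    (σ : Equiv.Perm (Fin m)) (hσ : ∀ x, x ∈ C ↔ (σ x : ℕ) < C.card) {Fm : Mat} (hFv : Valid Fm)
    (hFm : ∀ x y, adj Fm (σ x) (σ y) = true ↔ F.Adj x y) {D r t0 : ℕ} (hr : 0 < r) (ht0 : 0 < t0)
    (ht : (D + 2 * r + 1 : ℝ) ≤ δ / 2 * t0) {M : Mat} (hM : Valid M) (hD : DegLe M D) :
    matC (nearE 𝓕 δ) (red Fm m C.card r t0 M) := by
  have hv : Valid (red Fm m C.card r t0 M) := blow_valid hFv hM _ _ _ _
  obtain ⟨G, hG⟩ := exists_graph _ hv
  refine ⟨G, hG, m, F, hF, ?_⟩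
  obtain ⟨t, htd⟩ : ∃ t, t = gt m C.card r t0 M.length := ⟨_, rfl⟩
  have hL : (red Fm m C.card r t0 M).length = m * t := by
    rw [htd]
    exact blow_length _ _ _ _ _ _
  have htt : t0 ≤ t := by
    rw [htd]
    unfold gt
    exact Nat.le_add_left _ _
  have hred : ∀ i j : ℕ, i < m * t → j < m * t →
      adj (red Fm m C.card r t0 M) i j = ge Fm M C.card r t i j := by
    intro i j hi hj
    unfold red
    rw [adj_blow, ← htd, decide_eq_true hi, decide_eq_true hj, Bool.true_and, Bool.true_and]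
  have hadj : ∀ u v : Fin (red Fm m C.card r t0 M).length,
      G.Adj u v ↔ ge Fm M C.card r t u v = true := by
    intro u v
    rw [← adj_mat G u v, hG, hred u v (by have := u.2; omega) (by have := v.2; omega)]
  have h1 := edit_of hm F C σ hσ hFv hFm hM hD hr (lt_of_lt_of_le ht0 htt) hL G hadj
  refine h1.mono ?_
  have hm' : (1 : ℝ) ≤ m := by exact_mod_cast hm
  have ht0' : (0 : ℝ) < t0 := by exact_mod_cast ht0
  have htt' : (t0 : ℝ) ≤ t := by exact_mod_cast htt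
  have h2 : inn F C / (m : ℝ) ^ 2 ≤ δ / 2 := by
    rw [div_le_iff₀ (by positivity)]
    exact hC
  have h3 : (D + 2 * r + 1 : ℝ) / (m * t) ≤ δ / 2 := by
    have h5 : (0 : ℝ) ≤ D + 2 * r + 1 := by positivity
    have h6 : 0 ≤ δ / 2 := by
      by_contra h7
      have h8 : δ / 2 * t0 < 0 := mul_neg_of_neg_of_pos (by linarith) ht0'
      linarith
    have h9 : (0 : ℝ) < m * t := by
      have h10 : (0 : ℝ) < t := by linarith
      have h11 : (0 : ℝ) < m := by linarith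
      exact mul_pos h11 h10
    rw [div_le_iff₀ h9]
    refine ht.trans (mul_le_mul_of_nonneg_left ?_ h6)
    calc (t0 : ℝ) ≤ t := htt'
      _ = 1 * t := (one_mul _).symm
      _ ≤ m * t := mul_le_mul_of_nonneg_right hm' (by positivity)
  linarith

/-- the gadgets over `Fm` belong to the class `𝒢` -/
def Gad (𝒢 : Cls) (Fm : Mat) (m k : ℕ) : Prop := ∀ D r : ℕ, 0 < r → ∃ t0 : ℕ, 0 < t0 ∧
  ∀ M, Valid M → DegLe M D → matC 𝒢 (red Fm m k r t0 M)

private theorem low1 {𝒢 : Cls} {Fm : Mat} (hFv : Valid Fm) {m k : ℕ} (hkm : k ≤ m)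
    (H : Gad 𝒢 Fm m k) {r : ℕ} (hr : m - k < k * r) (η : ℝ) (hη : 0 < η) :
    1 + eps allG ≤ max (1 + η) ((1 + eps 𝒢 + η) ^
      ((m : ℝ) * r / (k * r - (m - k) : ℕ))) * (1 + η) := by
  have he := eps_nonneg 𝒢
  have hr0 : 0 < r := by
    rcases Nat.eq_zero_or_pos r with h | h
    · rw [h, Nat.mul_zero] at hr
      omega
    · exact h
  have hc : (1 : ℝ) ≤ 1 + eps 𝒢 + η := by linarith
  have h2 : ITM (matC 𝒢) (1 + eps 𝒢 + η) := itm_of_inTime hc (inTime_of_gt (by linarith))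
  obtain ⟨D, hD⟩ := exists_pow η hη
  obtain ⟨t0, ht0, hH⟩ := H D r hr0
  obtain ⟨K, hK⟩ := gt_le (m := m) (t0 := t0) hr
  have hy : (0 : ℝ) ≤ (m : ℝ) * r / (k * r - (m - k) : ℕ) := by positivity
  have h3 := lowG D (1 + η) (by linarith) hD (𝒬 := matC 𝒢) (red Fm m k r t0)
    (polyTime_red Fm m k r t0) ((m : ℝ) * r / (k * r - (m - k) : ℕ)) hy K
    (fun M hM hA => ⟨blow_valid hFv hM _ _ _ _, hH M hM hA, by
        have h4 : (red Fm m k r t0 M).length = m * gt m k r t0 M.length :=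
          blow_length _ _ _ _ _ _
        rw [h4]
        exact hK _, fun b hb => blow_back hM hkm (gt_cond hr hr0 ht0 _) b hb⟩)
    (1 + eps 𝒢 + η) hc h2 η hη
  have h4 : (1 : ℝ) ≤ max (1 + η) ((1 + eps 𝒢 + η) ^
      ((m : ℝ) * r / (k * r - (m - k) : ℕ))) * (1 + η) := by
    have h5 : 1 + η ≤ max (1 + η) ((1 + eps 𝒢 + η) ^
      ((m : ℝ) * r / (k * r - (m - k) : ℕ))) := le_max_left _ _
    nlinarith
  exact eps_le h4 ((inTime_all h4).mpr h3)

private theorem low2 {𝒢 : Cls} {Fm : Mat} (hFv : Valid Fm) {m k : ℕ} (hkm : k ≤ m)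
    (H : Gad 𝒢 Fm m k) {r : ℕ} (hr : m - k < k * r) :
    1 + eps allG ≤ (1 + eps 𝒢) ^ ((m : ℝ) * r / (k * r - (m - k) : ℕ)) := by
  have he := eps_nonneg 𝒢
  obtain ⟨y, hy⟩ : ∃ y : ℝ, y = (m : ℝ) * r / (k * r - (m - k) : ℕ) := ⟨_, rfl⟩
  have hy0 : 0 ≤ y := by
    rw [hy]
    positivity
  have h1 : Tendsto (fun η : ℝ => max (1 + η) ((1 + eps 𝒢 + η) ^ y) * (1 + η))
      (𝓝[>] 0) (𝓝 (max (1 + 0) ((1 + eps 𝒢 + 0) ^ y) * (1 + 0))) := by
    have e1 : ContinuousAt (fun η : ℝ => (1 : ℝ) + η) 0 := by fun_prop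
    have e2 : ContinuousAt (fun η : ℝ => (1 + eps 𝒢 + η) ^ y) 0 := by
      refine ContinuousAt.rpow_const (by fun_prop) ?_
      left
      have : (0 : ℝ) < 1 + eps 𝒢 + 0 := by linarith
      exact this.ne'
    exact ((e1.tendsto.max e2.tendsto).mul e1.tendsto).mono_left nhdsWithin_le_nhds
  have h3 : (1 : ℝ) ≤ (1 + eps 𝒢) ^ y := Real.one_le_rpow (by linarith) hy0
  rw [add_zero, add_zero, mul_one, max_eq_right h3] at h1
  rw [← hy]
  refine ge_of_tendsto h1 ?_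
  filter_upwards [self_mem_nhdsWithin] with η hη
  rw [hy]
  exact low1 hFv hkm H hr η hη

theorem low3 {𝒢 : Cls} {Fm : Mat} (hFv : Valid Fm) {m k : ℕ} (hk : 0 < k) (hkm : k ≤ m)
    (H : Gad 𝒢 Fm m k) : 1 + eps allG ≤ (1 + eps 𝒢) ^ ((m : ℝ) / k) := by
  have he := eps_nonneg 𝒢
  have hk' : (0 : ℝ) < k := by exact_mod_cast hk
  have h1 : Tendsto (fun r : ℕ => (m : ℝ) / ((k : ℝ) - (m - k) * (1 / (r : ℝ)))) atTop
      (𝓝 ((m : ℝ) / ((k : ℝ) - (m - k) * 0))) := by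
    refine Tendsto.div tendsto_const_nhds ?_ ?_
    · exact tendsto_const_nhds.sub (tendsto_const_nhds.mul tendsto_one_div_atTop_nhds_zero_nat)
    · rw [mul_zero, sub_zero]
      exact hk'.ne'
  rw [mul_zero, sub_zero] at h1
  have h2 : Tendsto (fun r : ℕ => (1 + eps 𝒢) ^ ((m : ℝ) / ((k : ℝ) - (m - k) * (1 / (r : ℝ)))))
      atTop (𝓝 ((1 + eps 𝒢) ^ ((m : ℝ) / k))) := by
    refine Tendsto.rpow tendsto_const_nhds h1 ?_
    left
    have : (0 : ℝ) < 1 + eps 𝒢 := by linarith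
    exact this.ne'
  refine ge_of_tendsto h2 ?_
  filter_upwards [eventually_gt_atTop m] with r hr
  have hr0 : 0 < r := lt_of_le_of_lt (Nat.zero_le _) hr
  have hr' : (0 : ℝ) < r := by exact_mod_cast hr0
  have h3 : m - k < k * r := by
    have : 1 * r ≤ k * r := Nat.mul_le_mul_right r hk
    omega
  have h4 := low2 hFv hkm H h3
  have h5 : (m : ℝ) * r / (k * r - (m - k) : ℕ) = (m : ℝ) / ((k : ℝ) - (m - k) * (1 / (r : ℝ))) := by
    rw [Nat.cast_sub h3.le, Nat.cast_sub hkm, Nat.cast_mul]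
    have h6 : (0 : ℝ) < (k : ℝ) * r - (m - k) := by
      have h7 : (((m - k : ℕ)) : ℝ) < ((k * r : ℕ) : ℝ) := by exact_mod_cast h3
      rw [Nat.cast_sub hkm, Nat.cast_mul] at h7
      linarith
    have h8 : (k : ℝ) - (m - k) * (1 / (r : ℝ)) = (k * r - (m - k)) / r := by
      field_simp
    rw [h8, div_div_eq_mul_div]
  rw [h5] at h4
  exact h4

/-- the lower bound in the form `c ^ (k / m) ≤ ...` -/
theorem low4 {𝒢 : Cls} {Fm : Mat} (hFv : Valid Fm) {m k : ℕ} (hk : 0 < k) (hkm : k ≤ m)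
    (H : Gad 𝒢 Fm m k) : (1 + eps allG) ^ ((k : ℝ) / m) ≤ 1 + eps 𝒢 := by
  have he := eps_nonneg 𝒢
  have hA := eps_nonneg allG
  have hk' : (0 : ℝ) < k := by exact_mod_cast hk
  have hm' : (0 : ℝ) < m := by exact_mod_cast lt_of_lt_of_le hk hkm
  have h1 := low3 hFv hk hkm H
  have h2 : (1 + eps allG) ^ ((k : ℝ) / m) ≤ ((1 + eps 𝒢) ^ ((m : ℝ) / k)) ^ ((k : ℝ) / m) :=
    Real.rpow_le_rpow (by linarith) h1 (by positivity)
  rw [← Real.rpow_mul (by linarith)] at h2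
  have h3 : (m : ℝ) / k * ((k : ℝ) / m) = 1 := by
    field_simp
  rw [h3, Real.rpow_one] at h2
  exact h2

/-- from rational exponents to real ones -/
theorem low5 {𝒢 : Cls} {θ : ℝ} (hθ : 0 ≤ θ)
    (key : ∀ x : ℝ, 0 < x → x < θ → (1 + eps allG) ^ x ≤ 1 + eps 𝒢) :
    (1 + eps allG) ^ θ ≤ 1 + eps 𝒢 := by
  have he := eps_nonneg 𝒢
  have hA := eps_nonneg allG
  rcases hθ.eq_or_lt with h0 | h0
  · rw [← h0, Real.rpow_zero]
    linarith
  · have h2 : Tendsto (fun x : ℝ => (1 + eps allG) ^ x) (𝓝[<] θ) (𝓝 ((1 + eps allG) ^ θ)) := by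
      have h3 : ContinuousAt (fun x : ℝ => (1 + eps allG) ^ x) θ := by
        refine ContinuousAt.rpow continuousAt_const continuousAt_id ?_
        left
        have : (0 : ℝ) < 1 + eps allG := by linarith
        exact this.ne'
      exact h3.tendsto.mono_left nhdsWithin_le_nhds
    refine le_of_tendsto h2 ?_
    filter_upwards [Ioo_mem_nhdsLT h0] with x hx
    exact key x hx.1 hx.2

theorem gad_near {𝓕 : Cls} {δ : ℝ} (hδ : 0 < δ) {m : ℕ} (hm : 0 < m) {F : SimpleGraph (Fin m)}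
    (hF : 𝓕 m F) (C : Finset (Fin m)) (hC : inn F C ≤ δ / 2 * m ^ 2) :
    ∃ Fm : Mat, Valid Fm ∧ Gad (nearE 𝓕 δ) Fm m C.card := by
  obtain ⟨σ, hσ⟩ := exists_perm C
  obtain ⟨Fm, hFv, hFm⟩ : ∃ Fm : Mat, Valid Fm ∧ ∀ x y, adj Fm (σ x) (σ y) = true ↔ F.Adj x y := by
    refine ⟨mat (F.comap σ.symm), valid_mat _, fun x y => ?_⟩
    rw [adj_mat]
    simp
  refine ⟨Fm, hFv, fun D r hr0 => ?_⟩
  obtain ⟨t0, ht0⟩ := exists_nat_ge ((D + 2 * r + 1 : ℝ) / (δ / 2))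
  have ht1 : (D + 2 * r + 1 : ℝ) ≤ δ / 2 * t0 := by
    rw [div_le_iff₀ (by positivity)] at ht0
    linarith
  have ht2 : 0 < t0 := by
    rcases Nat.eq_zero_or_pos t0 with h | h
    · exfalso
      rw [h, Nat.cast_zero, mul_zero] at ht1
      have : (0 : ℝ) ≤ D + 2 * r := by positivity
      linarith
    · exact h
  exact ⟨t0, ht2, fun M hM hA => red_near hm hF C hC σ hσ hFv hFm hr0 ht2 ht1 hM hA⟩

/-- the lower bound -/
theorem low_main {𝓕 : Cls} (h : NE 𝓕) {δ : ℝ} (hδ : 0 < δ) :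
    (1 + eps allG) ^ theta 𝓕 ≤ 1 + eps (nearE 𝓕 δ) := by
  have hA := eps_nonneg allG
  refine low5 (theta_nonneg h) fun x hx0 hx => ?_
  obtain ⟨m, F, C, hm, hF, hC, hxC⟩ := exists_set h hx (show 0 < δ / 2 by linarith)
  have hm' : (0 : ℝ) < m := by exact_mod_cast hm
  have hk' : (0 : ℝ) < C.card := by
    have h1 : 0 < (C.card : ℝ) / m := hx0.trans hxC
    by_contra h2
    have h3 : (C.card : ℝ) / m ≤ 0 := div_nonpos_of_nonpos_of_nonneg (not_lt.1 h2) hm'.le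
    linarith
  have hk : 0 < C.card := by exact_mod_cast hk'
  have hcm : C.card ≤ m := by
    have := card_le_univ C
    rwa [Fintype.card_fin] at this
  obtain ⟨Fm, hFv, H⟩ := gad_near hδ hm hF C hC
  exact (Real.rpow_le_rpow_of_exponent_le (by linarith) hxC.le).trans (low4 hFv hk hcm H)

end Pool.Agent.H21.DL
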