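import Pool.Agent.H21.DL.Up
import Pool.Agent.H21.DL.LowMain

/-!
# The dense limit law

`law`: for every class `𝓕` with a nonempty member the best base on the graphs near `𝓕` tends to
`(1 + eps allG) ^ theta 𝓕`. `up_self`: `1 + eps 𝓕 ≤ (1 + eps allG) ^ theta 𝓕`.
`theta_one`: for a single graph, `theta` is the independence number divided by the number of vertices.
-/

set_option autoImplicit false

namespace Pool.Agent.H21.DL

open Finset Filter Topology Pool.Agent.H66.MB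

theorem law {𝓕 : Cls} (h : NE 𝓕) {𝒢 : ℝ → Cls}
    (h1 : ∀ δ : ℝ, 0 < δ → ∀ n (G : SimpleGraph (Fin n)), nearE 𝓕 δ n G → 𝒢 δ n G)
    (h2 : ∀ δ : ℝ, 0 < δ → ∀ n (G : SimpleGraph (Fin n)), 𝒢 δ n G → nearC 𝓕 δ n G) :
    Tendsto (fun δ : ℝ => 1 + eps (𝒢 δ)) (𝓝[>] 0) (𝓝 ((1 + eps allG) ^ theta 𝓕)) := by
  have hA := eps_nonneg allG
  refine tendsto_order.2 ⟨fun x hx => ?_, fun x hx => ?_⟩
  · filter_upwards [self_mem_nhdsWithin] with δ hδ
    have h3 := low_main h hδ
    have h4 := eps_mono (h1 δ hδ)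
    linarith
  · have h3 : Tendsto (fun η : ℝ => (1 + η) * (1 + eps allG + η) ^ (theta 𝓕 + η)) (𝓝[>] 0)
        (𝓝 ((1 + 0) * (1 + eps allG + 0) ^ (theta 𝓕 + 0))) := by
      have h4 : ContinuousAt (fun η : ℝ => (1 + η) * (1 + eps allG + η) ^ (theta 𝓕 + η)) 0 := by
        refine ContinuousAt.mul (by fun_prop) ?_
        refine ContinuousAt.rpow (by fun_prop) (by fun_prop) ?_
        left
        have : (0 : ℝ) < 1 + eps allG + 0 := by linarith
        exact this.ne'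
      exact h4.tendsto.mono_left nhdsWithin_le_nhds
    rw [add_zero, add_zero, add_zero, one_mul] at h3
    obtain ⟨η, hη1, hη2⟩ := ((h3.eventually_lt_const hx).and self_mem_nhdsWithin).exists
    obtain ⟨δ0, hδ0, hup⟩ := up_main h η hη2
    filter_upwards [Ioc_mem_nhdsGT hδ0] with δ hδ
    have h5 := hup δ hδ.1 hδ.2
    have h6 := eps_mono (h2 δ hδ.1)
    linarith

theorem law_cut {𝓕 : Cls} (h : NE 𝓕) : Tendsto (fun δ : ℝ => 1 + eps (nearC 𝓕 δ)) (𝓝[>] 0)
    (𝓝 ((1 + eps allG) ^ theta 𝓕)) :=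
  law h (fun _ _ _ _ => nearE_le) (fun _ _ _ _ h => h)

theorem law_edit {𝓕 : Cls} (h : NE 𝓕) : Tendsto (fun δ : ℝ => 1 + eps (nearE 𝓕 δ)) (𝓝[>] 0)
    (𝓝 ((1 + eps allG) ^ theta 𝓕)) :=
  law h (fun _ _ _ _ h => h) (fun _ _ _ _ => nearE_le)

/-- a graph is at distance `0` from itself -/
theorem editLe_self {n : ℕ} (G : SimpleGraph (Fin n)) {δ : ℝ} (hδ : 0 ≤ δ) : EditLe G G δ := by
  classical
  refine ⟨fun u x => if u = x then 1 / (n : ℝ) else 0, ⟨?_, ?_, ?_⟩, ?_⟩
  · intro u x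
    split_ifs
    · positivity
    · exact le_refl _
  · intro u
    rw [sum_ite_eq]
    simp
  · intro x
    rw [sum_ite_eq']
    simp
  · refine le_trans (le_of_eq ?_) hδ
    refine sum_eq_zero fun p _ => sum_eq_zero fun q _ => ?_
    dsimp only
    by_cases h1 : p.1 = p.2
    · by_cases h2 : q.1 = q.2
      · rw [h1, h2, sub_self, abs_zero, mul_zero]
      · rw [if_neg h2, mul_zero, zero_mul]
    · rw [if_neg h1, zero_mul, zero_mul]

theorem up_self {𝓕 : Cls} (h : NE 𝓕) : 1 + eps 𝓕 ≤ (1 + eps allG) ^ theta 𝓕 := by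
  refine ge_of_tendsto (law_edit h) ?_
  filter_upwards [self_mem_nhdsWithin] with δ hδ
  have h1 : eps 𝓕 ≤ eps (nearE 𝓕 δ) :=
    eps_mono fun n G hG => ⟨n, G, hG, editLe_self G (le_of_lt hδ)⟩
  linarith

/-! ### a single graph -/

/-- the class consisting of the graph `F` only -/
def one {m : ℕ} (F : SimpleGraph (Fin m)) : Cls := fun n G =>
  (⟨n, G⟩ : Σ k : ℕ, SimpleGraph (Fin k)) = ⟨m, F⟩

theorem one_self {m : ℕ} (F : SimpleGraph (Fin m)) : one F m F := rfl

theorem one_elim {m : ℕ} {F : SimpleGraph (Fin m)} {P : ∀ n : ℕ, SimpleGraph (Fin n) → Prop}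
    (h : P m F) {n : ℕ} {G : SimpleGraph (Fin n)} (hG : one F n G) : P n G := by
  unfold one at hG
  cases hG
  exact h

theorem near_one {m : ℕ} (F : SimpleGraph (Fin m)) {δ : ℝ} {n : ℕ} {G : SimpleGraph (Fin n)} :
    (nearC (one F) δ n G ↔ CutLe G F δ) ∧ (nearE (one F) δ n G ↔ EditLe G F δ) := by
  constructor
  · constructor
    · rintro ⟨m', F', h1, h2⟩
      unfold one at h1
      cases h1
      exact h2
    · intro h
      exact ⟨m, F, rfl, h⟩
  · constructor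
    · rintro ⟨m', F', h1, h2⟩
      unfold one at h1
      cases h1
      exact h2
    · intro h
      exact ⟨m, F, rfl, h⟩

theorem inn_eq_zero_iff {m : ℕ} (F : SimpleGraph (Fin m)) (C : Finset (Fin m)) :
    inn F C = 0 ↔ F.IsIndepSet (C : Set (Fin m)) := by
  unfold inn
  rw [sum_eq_zero_iff_of_nonneg fun x _ => sum_nonneg fun y _ => av_nonneg _ _ _]
  constructor
  · intro h x hx y hy _ hxy
    have h1 := (sum_eq_zero_iff_of_nonneg fun y _ => av_nonneg F x y).1 (h x hx) y hy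
    unfold av at h1
    rw [if_pos hxy] at h1
    exact one_ne_zero h1
  · intro h x hx
    refine sum_eq_zero fun y hy => ?_
    unfold av
    by_cases hxy : F.Adj x y
    · exact absurd hxy (h hx hy hxy.ne)
    · rw [if_neg hxy]

theorem one_le_inn {m : ℕ} (F : SimpleGraph (Fin m)) (C : Finset (Fin m)) (h : inn F C ≠ 0) :
    1 ≤ inn F C := by
  have h1 : ∃ k : ℕ, inn F C = k := by
    refine ⟨∑ x ∈ C, ∑ y ∈ C, (open Classical in if F.Adj x y then 1 else 0), ?_⟩
    unfold inn av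
    push_cast
    rfl
  obtain ⟨k, hk⟩ := h1
  rw [hk] at h ⊢
  have h2 : k ≠ 0 := fun h3 => h (by rw [h3, Nat.cast_zero])
  exact_mod_cast Nat.one_le_iff_ne_zero.2 h2

theorem theta_one {m : ℕ} (hm : 0 < m) (F : SimpleGraph (Fin m)) :
    theta (one F) = F.indepNum / m := by
  have hm' : (0 : ℝ) < m := by exact_mod_cast hm
  have hNE : NE (one F) := ⟨m, F, hm, rfl⟩
  obtain ⟨C, hC⟩ := F.exists_isNIndepSet_indepNum
  apply le_antisymm
  · have hδ : (0 : ℝ) < 1 / (2 * m ^ 2) := by positivity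
    refine (theta_le hNE hδ).trans (csSup_le ⟨0, zero_mem_ratios hNE hδ.le⟩ ?_)
    rintro x ⟨m', F', C', hm0, h1, h2, rfl⟩
    unfold one at h1
    cases h1
    have h3 : inn F C' = 0 := by
      by_contra h4
      have h5 := one_le_inn F C' h4
      have h6 : 1 / (2 * (m : ℝ) ^ 2) * m ^ 2 = 1 / 2 := by
        field_simp
      rw [h6] at h2
      linarith
    have h4 : F.IsNIndepSet C'.card C' := ⟨(inn_eq_zero_iff F C').1 h3, rfl⟩
    have h5 : C'.card ≤ F.indepNum := h4.1.card_le_indepNum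
    exact div_le_div_of_nonneg_right (by exact_mod_cast h5) hm'.le
  · refine le_csInf (theta_set_ne _) ?_
    rintro x ⟨δ, hδ, rfl⟩
    refine le_csSup (ratios_bddAbove _ _) ⟨m, F, C, hm, rfl, ?_, by rw [hC.2]⟩
    rw [(inn_eq_zero_iff F C).2 hC.1]
    exact mul_nonneg (le_of_lt hδ) (by positivity)

theorem law_single {m : ℕ} (hm : 0 < m) (F : SimpleGraph (Fin m)) :
    Tendsto (fun δ : ℝ => 1 + eps (fun _ G => CutLe G F δ)) (𝓝[>] 0)
        (𝓝 ((1 + eps allG) ^ ((F.indepNum : ℝ) / m))) ∧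
      Tendsto (fun δ : ℝ => 1 + eps (fun _ G => EditLe G F δ)) (𝓝[>] 0)
        (𝓝 ((1 + eps allG) ^ ((F.indepNum : ℝ) / m))) := by
  have hNE : NE (one F) := ⟨m, F, hm, rfl⟩
  rw [← theta_one hm F]
  constructor
  · exact law hNE (fun δ _ n G h => CutLe.of_edit ((near_one F).2.1 h))
      (fun δ _ n G h => (near_one F).1.2 h)
  · exact law hNE (fun δ _ n G h => (near_one F).2.1 h)
      (fun δ _ n G h => (near_one F).1.2 (CutLe.of_edit h))

end Pool.Agent.H21.DL
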