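import Pool.Agent.H21.DL.Dens

/-!
# Graphs of given minimum degree

`mind ρ`: every vertex has at least `ρ n` neighbours. A vertex of a set `C` with few inner edges has
at most `m - |C|` + (few) neighbours, so `theta (mind ρ) ≤ 1 - ρ`. The gadgets over `spl m k` have
minimum degree at least `(m - k) t`.
-/

set_option autoImplicit false

namespace Pool.Agent.H21.DL

open Finset Filter Topology Pool.Agent.H66.MB

/-- graphs of minimum degree at least `ρ n` -/
def mind (ρ : ℝ) : Cls := fun n G => ∀ v, ρ * n ≤ (G.neighborSet v).ncard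

theorem deg_eq {n : ℕ} (G : SimpleGraph (Fin n)) (v : Fin n) :
    ((G.neighborSet v).ncard : ℝ) = ∑ u, av G v u := by
  rw [up_deg G univ v, coe_univ, Set.inter_univ]

theorem sum_blow (f : ℕ → ℝ) {L m t : ℕ} (hL : L = m * t) :
    ∑ u : Fin L, f ((u : ℕ) / t) = t * ∑ b ∈ range m, f b := by
  rw [Fin.sum_univ_eq_sum_range (fun u : ℕ => f (u / t)) L, hL, sum_parts f t m]

theorem gad_mind {ρ : ℝ} {m k : ℕ} (hk : 0 < k) (hkm : k ≤ m) (h : ρ * m ≤ m - k) :
    Gad (mind ρ) (mat (spl m k)) m k := by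
  intro D r hr
  refine ⟨1, one_pos, fun M hM _ => ?_⟩
  have hm : 0 < m := lt_of_lt_of_le hk hkm
  have hFv : Valid (mat (spl m k)) := valid_mat _
  have hv : Valid (red (mat (spl m k)) m k r 1 M) := blow_valid hFv hM _ _ _ _
  obtain ⟨G, hG⟩ := exists_graph _ hv
  refine ⟨G, hG, ?_⟩
  obtain ⟨t, htd⟩ : ∃ t, t = gt m k r 1 M.length := ⟨_, rfl⟩
  have ht : 0 < t := by
    rw [htd]
    unfold gt
    exact Nat.succ_pos _
  have hL : (red (mat (spl m k)) m k r 1 M).length = m * t := by
    rw [htd]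
    exact blow_length _ _ _ _ _ _
  have hred : ∀ i j : ℕ, i < m * t → j < m * t →
      adj (red (mat (spl m k)) m k r 1 M) i j = ge (mat (spl m k)) M k r t i j := by
    intro i j hi hj
    unfold red
    rw [adj_blow, ← htd, decide_eq_true hi, decide_eq_true hj, Bool.true_and, Bool.true_and]
  intro v
  have hvl : (v : ℕ) < m * t := by
    have := v.2
    omega
  have hvt : (v : ℕ) / t < m := by
    rw [Nat.div_lt_iff_lt_mul ht]
    exact hvl
  rw [deg_eq]
  have hLr : ((red (mat (spl m k)) m k r 1 M).length : ℝ) = m * t := by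
    rw [hL, Nat.cast_mul]
  refine le_trans (le_of_eq (congrArg (fun z => ρ * z) hLr)) ?_
  -- `G` contains the blow-up of `spl m k`
  have h1 : ∀ u : Fin (red (mat (spl m k)) m k r 1 M).length,
      bv (adj (mat (spl m k)) ((v : ℕ) / t) ((u : ℕ) / t)) ≤ av G v u := by
    intro u
    have hul : (u : ℕ) < m * t := by
      have := u.2
      omega
    by_cases h2 : adj (mat (spl m k)) ((v : ℕ) / t) ((u : ℕ) / t) = true
    · have hut : (u : ℕ) / t < m := by
        rw [Nat.div_lt_iff_lt_mul ht]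
        exact hul
      have h3 : (spl m k).Adj ⟨(v : ℕ) / t, hvt⟩ ⟨(u : ℕ) / t, hut⟩ :=
        (adj_mat (spl m k) ⟨(v : ℕ) / t, hvt⟩ ⟨(u : ℕ) / t, hut⟩).1 h2
      have h4 : ge (mat (spl m k)) M k r t v u = true := by
        unfold ge
        by_cases hvk : (v : ℕ) < k * t
        · by_cases huk : (u : ℕ) < k * t
          · exfalso
            refine h3.2 ⟨?_, ?_⟩
            · show (v : ℕ) / t < k
              rw [Nat.div_lt_iff_lt_mul ht]
              exact hvk
            · show (u : ℕ) / t < k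
              rw [Nat.div_lt_iff_lt_mul ht]
              exact huk
          · rw [if_pos hvk, if_neg huk, h2, Bool.true_or]
        · by_cases huk : (u : ℕ) < k * t
          · rw [if_neg hvk, if_pos huk, h2, Bool.true_or]
          · rw [if_neg hvk, if_neg huk, h2, Bool.true_or, Bool.and_true]
            refine decide_eq_true fun hvu => h3.1 (Fin.ext ?_)
            show (v : ℕ) / t = (u : ℕ) / t
            rw [hvu]
      have h5 : G.Adj v u := by
        rw [← adj_mat G v u, hG, hred v u hvl hul]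
        exact h4
      unfold av bv
      rw [if_pos h2, if_pos h5]
    · unfold bv
      rw [if_neg h2]
      exact av_nonneg _ _ _
  refine le_trans ?_ (sum_le_sum fun u _ => h1 u)
  rw [sum_blow (fun b => bv (adj (mat (spl m k)) ((v : ℕ) / t) b)) hL]
  have h6 : ∑ b ∈ range m, bv (adj (mat (spl m k)) ((v : ℕ) / t) b) =
      ∑ y : Fin m, av (spl m k) ⟨(v : ℕ) / t, hvt⟩ y := by
    rw [← Fin.sum_univ_eq_sum_range (fun b : ℕ => bv (adj (mat (spl m k)) ((v : ℕ) / t) b)) m]
    refine sum_congr rfl fun y _ => ?_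
    have h7 := adj_mat (spl m k) ⟨(v : ℕ) / t, hvt⟩ y
    unfold av bv
    by_cases h8 : (spl m k).Adj ⟨(v : ℕ) / t, hvt⟩ y
    · rw [if_pos h8, if_pos (h7.2 h8)]
    · rw [if_neg h8, if_neg (fun h9 => h8 (h7.1 h9))]
  rw [h6]
  have h7 := spl_deg hk hkm ⟨(v : ℕ) / t, hvt⟩
  have ht' : (0 : ℝ) < t := by exact_mod_cast ht
  calc ρ * (m * t) = t * (ρ * m) := by ring
    _ ≤ t * (m - k) := mul_le_mul_of_nonneg_left h ht'.le
    _ ≤ t * ∑ y : Fin m, av (spl m k) ⟨(v : ℕ) / t, hvt⟩ y := mul_le_mul_of_nonneg_left h7 ht'.le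

theorem theta_mind {ρ : ℝ} (h1 : ρ < 1) :
    NE (mind ρ) ∧ theta (mind ρ) ≤ 1 - ρ := by
  have hNE : NE (mind ρ) := by
    obtain ⟨m, hm⟩ := exists_nat_gt (1 / (1 - ρ))
    have h2 : 0 < 1 - ρ := by linarith
    rw [div_lt_iff₀ h2] at hm
    have hm0 : 0 < m := by
      rcases Nat.eq_zero_or_pos m with h3 | h3
      · rw [h3, Nat.cast_zero, zero_mul] at hm
        linarith
      · exact h3
    refine ⟨m, spl m 1, hm0, fun v => ?_⟩
    rw [deg_eq]
    have h3 := spl_deg (m := m) one_pos hm0 v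
    push_cast at h3
    linarith
  refine ⟨hNE, ?_⟩
  have h2 : ∀ δ : ℝ, 0 < δ → theta (mind ρ) ≤ 1 - ρ + √δ := by
    intro δ hδ
    refine (theta_le hNE hδ).trans (csSup_le ⟨0, zero_mem_ratios hNE hδ.le⟩ ?_)
    rintro x ⟨m, F, C, hm, hF, hC, rfl⟩
    have hm' : (0 : ℝ) < m := by exact_mod_cast hm
    have hs := Real.sq_sqrt hδ.le
    have hs0 := Real.sqrt_nonneg δ
    -- sum of the degrees in `C`
    have h3 : (C.card : ℝ) * (ρ * m) ≤ C.card * (m - C.card) + inn F C := by
      have h4 : ∀ x ∈ C, ρ * m ≤ (m - C.card) + ∑ y ∈ C, av F x y := by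
        intro x _
        refine (hF x).trans ?_
        rw [deg_eq, ← sum_add_sum_compl C (fun y => av F x y)]
        have h5 : ∑ y ∈ Cᶜ, av F x y ≤ m - C.card := by
          calc ∑ y ∈ Cᶜ, av F x y ≤ ∑ _y ∈ Cᶜ, (1 : ℝ) := sum_le_sum fun y _ => av_le_one _ _ _
            _ = m - C.card := by
              rw [sum_const, nsmul_eq_mul, mul_one, card_compl, Fintype.card_fin,
                Nat.cast_sub]
              have := card_le_univ C
              rwa [Fintype.card_fin] at this
        linarith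
      have h6 := sum_le_sum h4
      rw [sum_add_distrib, sum_const, sum_const, nsmul_eq_mul, nsmul_eq_mul] at h6
      exact h6
    by_contra h4
    push Not at h4
    rw [lt_div_iff₀ hm'] at h4
    have h5 : (1 - ρ) * m + √δ * m < C.card := by linarith
    have h6 : 0 ≤ (1 - ρ) * m := by
      have : 0 ≤ 1 - ρ := by linarith
      positivity
    have h7 : √δ * m < C.card := by linarith
    have h8 : √δ * m < C.card - (1 - ρ) * m := by linarith
    have h9 : (√δ * m) * (√δ * m) < C.card * (C.card - (1 - ρ) * m) :=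
      mul_lt_mul'' h7 h8 (by positivity) (by positivity)
    nlinarith
  have h3 : Tendsto (fun δ : ℝ => 1 - ρ + √δ) (𝓝[>] 0) (𝓝 (1 - ρ + √0)) := by
    have h4 : ContinuousAt (fun δ : ℝ => 1 - ρ + √δ) 0 := by fun_prop
    exact h4.tendsto.mono_left nhdsWithin_le_nhds
  rw [Real.sqrt_zero, add_zero] at h3
  refine ge_of_tendsto h3 ?_
  filter_upwards [self_mem_nhdsWithin] with δ hδ
  exact h2 δ hδ

/-- the law for graphs of given minimum degree -/
theorem law_mind {ρ : ℝ} (h0 : 0 ≤ ρ) (h1 : ρ < 1) :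
    1 + eps (mind ρ) = (1 + eps allG) ^ (1 - ρ) := by
  have hA := eps_nonneg allG
  obtain ⟨hNE, hθ⟩ := theta_mind h1
  apply le_antisymm
  · exact (up_self hNE).trans (Real.rpow_le_rpow_of_exponent_le (by linarith) hθ)
  · refine low5 (by linarith) fun x hx0 hx => ?_
    obtain ⟨q, hq1, hq2⟩ := exists_rat_btwn hx
    have hq0 : (0 : ℝ) < q := hx0.trans hq1
    have hq0' : 0 < q := by exact_mod_cast hq0
    have hnum : 0 < q.num := Rat.num_pos.mpr hq0'
    have hnat : ((q.num.toNat : ℕ) : ℤ) = q.num := Int.toNat_of_nonneg hnum.le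
    have hcast : ((q.num.toNat : ℕ) : ℝ) / (q.den : ℝ) = q := by
      have h2 : ((q.num.toNat : ℕ) : ℝ) = (q.num : ℝ) := by
        exact_mod_cast congrArg (Int.cast (R := ℝ)) hnat
      rw [h2]
      exact (Rat.cast_def q).symm
    have hden : (0 : ℝ) < (q.den : ℝ) := by exact_mod_cast q.den_pos
    have hk : 0 < q.num.toNat := by omega
    have hq3 : ((q.num.toNat : ℕ) : ℝ) = q * q.den := by
      rw [← hcast]
      field_simp
    have hkm : q.num.toNat ≤ q.den := by
      have h3 : ((q.num.toNat : ℕ) : ℝ) ≤ (q.den : ℝ) := by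
        rw [hq3]
        nlinarith
      exact_mod_cast h3
    have h4 : ρ * (q.den : ℝ) ≤ (q.den : ℝ) - (q.num.toNat : ℕ) := by
      rw [hq3]
      nlinarith
    have h5 := low4 (valid_mat (spl q.den q.num.toNat)) hk hkm (gad_mind hk hkm h4)
    rw [hcast] at h5
    exact (Real.rpow_le_rpow_of_exponent_le (by linarith) hq1.le).trans h5

end Pool.Agent.H21.DL
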