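import Pool.Agent.H21.DL.Blow
import Pool.Agent.H66.MB.CorePoly

/-!
# The gadget is computed in polynomial time; its size
-/

set_option autoImplicit false

namespace Pool.Agent.H21.DL

open Pool.Agent.H80.Poly Pool.Agent.H66.MB

/-- the reduction -/
def red (Fm : Mat) (m k r t0 : ℕ) (M : Mat) : Mat := blow Fm M m k r (gt m k r t0 M.length)

theorem gt_cond {m k r t0 : ℕ} (hq : m - k < k * r) (hr : 0 < r) (ht0 : 1 ≤ t0) (N : ℕ) :
    N + (m - k) * gt m k r t0 N / r + 1 ≤ k * gt m k r t0 N := by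
  obtain ⟨q, hqd⟩ : ∃ q, q = k * r - (m - k) := ⟨_, rfl⟩
  have hq0 : 0 < q := by omega
  obtain ⟨t, ht⟩ : ∃ t, t = gt m k r t0 N := ⟨_, rfl⟩
  rw [← ht]
  have h1 : (N + 1) * r < q * t := by
    have h2 : (N + 1) * r < q * ((N + 1) * r / q + 1) := Nat.lt_mul_div_succ _ hq0
    refine lt_of_lt_of_le h2 (Nat.mul_le_mul_left q ?_)
    rw [ht]
    unfold gt
    rw [← hqd]
    omega
  have h3 : q * t + (m - k) * t = k * r * t := by
    rw [← Nat.add_mul]
    congr 1
    omega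
  have h4 : (m - k) * t + (N + 1) * r ≤ k * t * r := by
    have : k * t * r = k * r * t := by ring
    omega
  have h5 := Nat.div_le_div_right (c := r) h4
  rw [Nat.add_mul_div_right _ _ hr, Nat.mul_div_cancel _ hr] at h5
  generalize (m - k) * t / r = w at h5 ⊢
  omega

theorem gt_le {m k r t0 : ℕ} (hq : m - k < k * r) : ∃ K : ℕ, ∀ N : ℕ,
    ((m * gt m k r t0 N : ℕ) : ℝ) ≤ ((m : ℝ) * r / (k * r - (m - k) : ℕ)) * N + K := by
  have hq0 : (0 : ℝ) < ((k * r - (m - k) : ℕ) : ℝ) := by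
    have : 0 < k * r - (m - k) := by omega
    exact_mod_cast this
  refine ⟨⌈(m : ℝ) * r / (k * r - (m - k) : ℕ) + m * t0⌉₊, fun N => ?_⟩
  have h1 := Nat.le_ceil ((m : ℝ) * r / (k * r - (m - k) : ℕ) + m * t0)
  have h2 : (gt m k r t0 N : ℝ) ≤ ((N : ℝ) + 1) * r / (k * r - (m - k) : ℕ) + t0 := by
    unfold gt
    rw [Nat.cast_add]
    have h3 : (((N + 1) * r / (k * r - (m - k)) : ℕ) : ℝ) ≤
        (((N + 1) * r : ℕ) : ℝ) / ((k * r - (m - k) : ℕ) : ℝ) := Nat.cast_div_le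
    rw [Nat.cast_mul, Nat.cast_add, Nat.cast_one] at h3
    linarith
  have h3 : (m : ℝ) * gt m k r t0 N ≤ m * (((N : ℝ) + 1) * r / (k * r - (m - k) : ℕ) + t0) :=
    mul_le_mul_of_nonneg_left h2 (Nat.cast_nonneg _)
  have h4 : (m : ℝ) * (((N : ℝ) + 1) * r / (k * r - (m - k) : ℕ) + t0) =
      ((m : ℝ) * r / (k * r - (m - k) : ℕ)) * N + ((m : ℝ) * r / (k * r - (m - k) : ℕ) + m * t0) := by
    ring
  rw [Nat.cast_mul]
  linarith

private theorem pt_gt (m k r t0 : ℕ) : PolyTime (fun M : Mat => gt m k r t0 M.length) := by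
  have h : PolyTime (fun M : Mat => M.length) := PolyTime.length PolyTime.id
  exact (((h.add (PolyTime.const 1)).mul (PolyTime.const r)).div
    (PolyTime.const (k * r - (m - k)))).add (PolyTime.const t0)

private theorem gt_bd (m k r t0 : ℕ) (M : Mat) :
    m * gt m k r t0 M.length ≤ m * ((size M + 1) * r + t0) := by
  unfold gt
  have h1 := length_le_size M
  have h2 : (M.length + 1) * r ≤ (size M + 1) * r := Nat.mul_le_mul_right r (by omega)
  have h3 := Nat.div_le_self ((M.length + 1) * r) (k * r - (m - k))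
  exact Nat.mul_le_mul_left m (by omega)

private theorem pt_rg (m k r t0 : ℕ) :
    PolyTime (fun M : Mat => List.range (m * gt m k r t0 M.length)) :=
  PolyTime.range ((PolyTime.const m).mul (pt_gt m k r t0)) ⟨fun n => m * ((n + 1) * r + t0),
    ((PB.const m).mul (((PB.id.add (PB.const 1)).mul (PB.const r)).add (PB.const t0))),
    fun M => gt_bd m k r t0 M⟩

private theorem pt_ge (Fm : Mat) (m k r t0 : ℕ) :
    PolyTime (fun w : (Mat × ℕ) × ℕ => ge Fm w.1.1 k r (gt m k r t0 w.1.1.length) w.1.2 w.2) := by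
  have hw : PolyTime (fun w : (Mat × ℕ) × ℕ => w) := PolyTime.id
  have hM : PolyTime (fun w : (Mat × ℕ) × ℕ => w.1.1) := hw.fst.fst
  have hi : PolyTime (fun w : (Mat × ℕ) × ℕ => w.1.2) := hw.fst.snd
  have hj : PolyTime (fun w : (Mat × ℕ) × ℕ => w.2) := hw.snd
  have hL : PolyTime (fun w : (Mat × ℕ) × ℕ => w.1.1.length) := hM.length
  have ht : PolyTime (fun w : (Mat × ℕ) × ℕ => gt m k r t0 w.1.1.length) := (pt_gt m k r t0).comp hM
  have hkt : PolyTime (fun w : (Mat × ℕ) × ℕ => k * gt m k r t0 w.1.1.length) :=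
    (PolyTime.const k).mul ht
  have hF : PolyTime (fun w : (Mat × ℕ) × ℕ =>
      adj Fm (w.1.2 / gt m k r t0 w.1.1.length) (w.2 / gt m k r t0 w.1.1.length)) :=
    polyTime_adj (PolyTime.const Fm) (hi.div ht) (hj.div ht)
  have c1 := PolyTime.lt hi hkt
  have c2 := PolyTime.lt hj hkt
  have e1 : PolyTime (fun w : (Mat × ℕ) × ℕ => decide
      (w.1.2 = w.1.1.length + (w.2 - k * gt m k r t0 w.1.1.length) / r)) :=
    PolyTime.eq hi (hL.add ((hj.sub hkt).div (PolyTime.const r)))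
  have e2 : PolyTime (fun w : (Mat × ℕ) × ℕ => decide
      (w.2 = w.1.1.length + (w.1.2 - k * gt m k r t0 w.1.1.length) / r)) :=
    PolyTime.eq hj (hL.add ((hi.sub hkt).div (PolyTime.const r)))
  have e3 : PolyTime (fun w : (Mat × ℕ) × ℕ => decide
      ((w.1.2 - k * gt m k r t0 w.1.1.length) / r = (w.2 - k * gt m k r t0 w.1.1.length) / r)) :=
    PolyTime.eq ((hi.sub hkt).div (PolyTime.const r)) ((hj.sub hkt).div (PolyTime.const r))
  have e4 : PolyTime (fun w : (Mat × ℕ) × ℕ => decide (w.1.2 ≠ w.2)) := polyTime_ne hi hj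
  unfold ge
  refine PolyTime.ite (c := fun w : (Mat × ℕ) × ℕ => w.1.2 < k * gt m k r t0 w.1.1.length) c1 ?_ ?_
  · exact PolyTime.ite (c := fun w : (Mat × ℕ) × ℕ => w.2 < k * gt m k r t0 w.1.1.length) c2
      (polyTime_adj hM hi hj) (hF.or e1)
  · exact PolyTime.ite (c := fun w : (Mat × ℕ) × ℕ => w.2 < k * gt m k r t0 w.1.1.length) c2
      (hF.or e2) (e4.and (hF.or e3))

theorem polyTime_red (Fm : Mat) (m k r t0 : ℕ) : PolyTime (fun M : Mat => red Fm m k r t0 M) := by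
  have hw : PolyTime (fun w : Mat × ℕ => w) := PolyTime.id
  have hR := pt_rg m k r t0
  have h1 := PolyTime.map hR (g := fun w : Mat × ℕ =>
    (List.range (m * gt m k r t0 w.1.length)).map
      (fun j => ge Fm w.1 k r (gt m k r t0 w.1.length) w.2 j))
    (PolyTime.map (hR.comp hw.fst) (g := fun w : (Mat × ℕ) × ℕ =>
      ge Fm w.1.1 k r (gt m k r t0 w.1.1.length) w.1.2 w.2) (pt_ge Fm m k r t0))
  exact h1

end Pool.Agent.H21.DL
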