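import Pool.Agent.H21.DL.Basic

/-!
# The upper bound

`up_core`: let `C` be a set of vertices of `G` with inner degrees at most `D` and `X` an overlay of `G`
and `F` that shows that the cut distance is at most `δ`. Put `f x = m ∑_{u ∈ C} X u x ∈ [0,1]`,
`C' = {x : ε ≤ f x}`. Then `m |C| / n = ∑ f ≤ |C'| + ε m` and
`ε² inn F C' ≤ ∑ f x f y av F x y ≤ m² (δ + ∑_{u, v ∈ C} av G u v / n²) ≤ m² (δ + D / n)`.
`up_main`: the instance bound `inst` of `H66/MB`.
-/

set_option autoImplicit false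

namespace Pool.Agent.H21.DL

open Finset Filter Topology Pool.Agent.H66.MB

theorem up_F {n m : ℕ} (X : Fin n → Fin m → ℝ) (F : SimpleGraph (Fin m)) (C : Finset (Fin n)) :
    ∑ x, ∑ y, ((m : ℝ) * ∑ u ∈ C, X u x) * ((m : ℝ) * ∑ v ∈ C, X v y) * av F x y =
      (m : ℝ) ^ 2 * ∑ p ∈ C ×ˢ (univ : Finset (Fin m)), ∑ q ∈ C ×ˢ (univ : Finset (Fin m)),
        X p.1 p.2 * X q.1 q.2 * av F p.2 q.2 := by
  have key : ∑ p ∈ C ×ˢ (univ : Finset (Fin m)), ∑ q ∈ C ×ˢ (univ : Finset (Fin m)),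
        X p.1 p.2 * X q.1 q.2 * av F p.2 q.2 =
      ∑ x, ∑ y, (∑ u ∈ C, X u x) * (∑ v ∈ C, X v y) * av F x y := by
    rw [sum_product_right]
    refine sum_congr rfl fun x _ => ?_
    have h1 : ∀ u ∈ C, ∑ q ∈ C ×ˢ (univ : Finset (Fin m)), X u x * X q.1 q.2 * av F x q.2 =
        ∑ y, X u x * (∑ v ∈ C, X v y) * av F x y := by
      intro u _
      rw [sum_product_right]
      refine sum_congr rfl fun y _ => ?_
      rw [mul_sum, sum_mul]
    refine (sum_congr rfl h1).trans ?_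
    rw [sum_comm]
    refine sum_congr rfl fun y _ => ?_
    rw [← sum_mul, ← sum_mul]
  have h2 : ∀ x y : Fin m, ((m : ℝ) * ∑ u ∈ C, X u x) * ((m : ℝ) * ∑ v ∈ C, X v y) * av F x y =
      (m : ℝ) ^ 2 * ((∑ u ∈ C, X u x) * (∑ v ∈ C, X v y) * av F x y) := by
    intro x y
    ring
  rw [key, sum_congr rfl fun x _ => sum_congr rfl fun y _ => h2 x y]
  have h3 : ∀ x : Fin m, ∑ y, (m : ℝ) ^ 2 * ((∑ u ∈ C, X u x) * (∑ v ∈ C, X v y) * av F x y) =
      (m : ℝ) ^ 2 * ∑ y, (∑ u ∈ C, X u x) * (∑ v ∈ C, X v y) * av F x y := fun x =>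
    (Finset.mul_sum _ _ _).symm
  rw [sum_congr rfl fun x _ => h3 x]
  exact (Finset.mul_sum _ _ _).symm

theorem up_G {n m : ℕ} {X : Fin n → Fin m → ℝ} (hX : Overlay X) (G : SimpleGraph (Fin n))
    (C : Finset (Fin n)) :
    ∑ p ∈ C ×ˢ (univ : Finset (Fin m)), ∑ q ∈ C ×ˢ (univ : Finset (Fin m)),
        X p.1 p.2 * X q.1 q.2 * av G p.1 q.1 =
      ∑ u ∈ C, ∑ v ∈ C, (1 / (n : ℝ)) * (1 / n) * av G u v := by
  rw [sum_product]
  refine sum_congr rfl fun u _ => ?_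
  have h1 : ∀ x : Fin m, x ∈ (univ : Finset (Fin m)) →
      ∑ q ∈ C ×ˢ (univ : Finset (Fin m)), X u x * X q.1 q.2 * av G u q.1 =
      ∑ v ∈ C, X u x * (1 / n) * av G u v := by
    intro x _
    rw [sum_product]
    refine sum_congr rfl fun v _ => ?_
    rw [← hX.row v, mul_sum, sum_mul]
  refine (sum_congr rfl h1).trans ?_
  rw [sum_comm]
  refine sum_congr rfl fun v _ => ?_
  rw [← sum_mul, ← sum_mul, hX.row u]

theorem up_deg {n : ℕ} (G : SimpleGraph (Fin n)) (C : Finset (Fin n)) (u : Fin n) :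
    ∑ v ∈ C, av G u v = (G.neighborSet u ∩ C).ncard := by
  classical
  have h1 : (G.neighborSet u ∩ C : Set (Fin n)) = ((C.filter (fun v => G.Adj u v) : Finset (Fin n)) : Set (Fin n)) := by
    ext v
    simp only [Set.mem_inter_iff, SimpleGraph.mem_neighborSet, mem_coe, coe_filter, Set.mem_ofPred_eq]
    exact and_comm
  rw [h1, Set.ncard_coe_finset, card_filter]
  unfold av
  push_cast
  exact sum_congr rfl fun v _ => by congr

theorem up_core {n m : ℕ} (hn : 0 < n) {G : SimpleGraph (Fin n)} {F : SimpleGraph (Fin m)} {δ : ℝ}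
    (h : CutLe G F δ) {D : ℕ} {C : Finset (Fin n)}
    (hC : ∀ v ∈ C, (G.neighborSet v ∩ C).ncard ≤ D) {ε : ℝ} (hε : 0 < ε) :
    0 < m ∧ ∃ C' : Finset (Fin m), inn F C' ≤ (δ + D / n) / ε ^ 2 * m ^ 2 ∧
      (C.card : ℝ) / n ≤ C'.card / m + ε := by
  classical
  obtain ⟨X, hX, hcut⟩ := h
  have hm : 0 < m := hX.pos hn
  have hn' : (0 : ℝ) < n := by exact_mod_cast hn
  have hm' : (0 : ℝ) < m := by exact_mod_cast hm
  refine ⟨hm, ?_⟩
  obtain ⟨f, hf⟩ : ∃ f : Fin m → ℝ, ∀ x, f x = (m : ℝ) * ∑ u ∈ C, X u x :=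
    ⟨fun x => (m : ℝ) * ∑ u ∈ C, X u x, fun _ => rfl⟩
  have hf0 : ∀ x, 0 ≤ f x := by
    intro x
    rw [hf]
    exact mul_nonneg hm'.le (sum_nonneg fun u _ => hX.nonneg _ _)
  have hf1 : ∀ x, f x ≤ 1 := by
    intro x
    rw [hf]
    have h1 : ∑ u ∈ C, X u x ≤ 1 / m := by
      rw [← hX.col x]
      exact sum_le_sum_of_subset_of_nonneg (subset_univ _) fun u _ _ => hX.nonneg _ _
    calc (m : ℝ) * ∑ u ∈ C, X u x ≤ m * (1 / m) := mul_le_mul_of_nonneg_left h1 hm'.le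
      _ = 1 := by field_simp
  have hfs : ∑ x, f x = m * (C.card / n) := by
    simp_rw [hf]
    rw [← mul_sum, sum_comm]
    congr 1
    simp_rw [hX.row]
    rw [sum_const, nsmul_eq_mul]
    ring
  refine ⟨univ.filter (fun x => ε ≤ f x), ?_, ?_⟩
  · have h1 : ε ^ 2 * inn F (univ.filter (fun x => ε ≤ f x)) ≤ ∑ x, ∑ y, f x * f y * av F x y := by
      unfold inn
      rw [mul_sum]
      calc ∑ x ∈ univ.filter (fun x => ε ≤ f x), ε ^ 2 * ∑ y ∈ univ.filter (fun x => ε ≤ f x), av F x y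
          ≤ ∑ x ∈ univ.filter (fun x => ε ≤ f x), ∑ y ∈ univ.filter (fun x => ε ≤ f x),
            f x * f y * av F x y := by
            refine sum_le_sum fun x hx => ?_
            rw [mul_sum]
            refine sum_le_sum fun y hy => ?_
            rw [mem_filter] at hx hy
            refine mul_le_mul_of_nonneg_right ?_ (av_nonneg _ _ _)
            rw [sq]
            exact mul_le_mul hx.2 hy.2 hε.le (hf0 x)
        _ ≤ ∑ x, ∑ y ∈ univ.filter (fun x => ε ≤ f x), f x * f y * av F x y :=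
            sum_le_sum_of_subset_of_nonneg (subset_univ _) fun x _ _ =>
              sum_nonneg fun y _ => mul_nonneg (mul_nonneg (hf0 _) (hf0 _)) (av_nonneg _ _ _)
        _ ≤ ∑ x, ∑ y, f x * f y * av F x y :=
            sum_le_sum fun x _ => sum_le_sum_of_subset_of_nonneg (subset_univ _) fun y _ _ =>
              mul_nonneg (mul_nonneg (hf0 _) (hf0 _)) (av_nonneg _ _ _)
    have h2 : ∑ x, ∑ y, f x * f y * av F x y = (m : ℝ) ^ 2 *
        ∑ p ∈ C ×ˢ (univ : Finset (Fin m)), ∑ q ∈ C ×ˢ (univ : Finset (Fin m)),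
          X p.1 p.2 * X q.1 q.2 * av F p.2 q.2 := by
      simp_rw [hf]
      exact up_F X F C
    have h3 := hcut (C ×ˢ (univ : Finset (Fin m))) (C ×ˢ (univ : Finset (Fin m)))
    have h4 : ∑ p ∈ C ×ˢ (univ : Finset (Fin m)), ∑ q ∈ C ×ˢ (univ : Finset (Fin m)),
        X p.1 p.2 * X q.1 q.2 * (av G p.1 q.1 - av F p.2 q.2) =
        ∑ p ∈ C ×ˢ (univ : Finset (Fin m)), ∑ q ∈ C ×ˢ (univ : Finset (Fin m)),
          X p.1 p.2 * X q.1 q.2 * av G p.1 q.1 -
        ∑ p ∈ C ×ˢ (univ : Finset (Fin m)), ∑ q ∈ C ×ˢ (univ : Finset (Fin m)),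
          X p.1 p.2 * X q.1 q.2 * av F p.2 q.2 := by
      simp only [mul_sub, sum_sub_distrib]
    have h5 : ∑ p ∈ C ×ˢ (univ : Finset (Fin m)), ∑ q ∈ C ×ˢ (univ : Finset (Fin m)),
          X p.1 p.2 * X q.1 q.2 * av G p.1 q.1 ≤ D / n := by
      rw [up_G hX]
      have h6 : ∀ u ∈ C, ∑ v ∈ C, (1 / (n : ℝ)) * (1 / n) * av G u v ≤
          (1 / (n : ℝ)) * (1 / n) * D := by
        intro u hu
        rw [← mul_sum, up_deg]
        exact mul_le_mul_of_nonneg_left (by exact_mod_cast hC u hu) (by positivity)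
      have h7 : (C.card : ℝ) ≤ n := by
        have := card_le_univ C
        rw [Fintype.card_fin] at this
        exact_mod_cast this
      calc ∑ u ∈ C, ∑ v ∈ C, (1 / (n : ℝ)) * (1 / n) * av G u v
          ≤ ∑ _u ∈ C, (1 / (n : ℝ)) * (1 / n) * D := sum_le_sum h6
        _ = C.card * ((1 / (n : ℝ)) * (1 / n) * D) := by rw [sum_const, nsmul_eq_mul]
        _ ≤ n * ((1 / (n : ℝ)) * (1 / n) * D) := mul_le_mul_of_nonneg_right h7 (by positivity)
        _ = D / n := by field_simp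
    rw [h4, abs_le] at h3
    have h8 : ε ^ 2 * inn F (univ.filter (fun x => ε ≤ f x)) ≤ (m : ℝ) ^ 2 * (δ + D / n) := by
      refine h1.trans ?_
      rw [h2]
      refine mul_le_mul_of_nonneg_left ?_ (by positivity)
      linarith [h3.1]
    rw [div_mul_eq_mul_div, le_div_iff₀ (by positivity)]
    linarith
  · have h1 : ∑ x, f x ≤ (univ.filter (fun x => ε ≤ f x)).card + ε * m := by
      calc ∑ x, f x ≤ ∑ x : Fin m, ((if ε ≤ f x then (1 : ℝ) else 0) + ε) := by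
            refine sum_le_sum fun x _ => ?_
            split_ifs with h
            · linarith [hf1 x]
            · linarith [not_le.1 h]
        _ = _ := by
            rw [sum_add_distrib, sum_const, card_univ, Fintype.card_fin, nsmul_eq_mul, card_filter]
            push_cast
            ring
    rw [hfs] at h1
    have h2 : (C.card : ℝ) / n * m ≤ (univ.filter (fun x => ε ≤ f x)).card + ε * m := by linarith
    have h3 : (((univ.filter (fun x => ε ≤ f x)).card : ℝ) / m + ε) * m =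
        (univ.filter (fun x => ε ≤ f x)).card + ε * m := by
      field_simp
    rw [← h3] at h2
    exact le_of_mul_le_mul_right h2 hm'

theorem up_main {𝓕 : Cls} (h : NE 𝓕) (η : ℝ) (hη : 0 < η) : ∃ δ0 : ℝ, 0 < δ0 ∧ ∀ δ, 0 < δ → δ ≤ δ0 →
    1 + eps (nearC 𝓕 δ) ≤ (1 + η) * (1 + eps allG + η) ^ (theta 𝓕 + η) := by
  have he := eps_nonneg allG
  have hc1 : (1 : ℝ) ≤ 1 + eps allG + η := by linarith
  have hθ0 : 0 ≤ theta 𝓕 := theta_nonneg h
  obtain ⟨δ1, hδ1, hsp⟩ := exists_sp_lt (𝓕 := 𝓕) (x := theta 𝓕 + η / 2) (by linarith)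
  obtain ⟨D, p, K, hp⟩ := inst η hη
  have hε : 0 < η / 2 := by linarith
  refine ⟨δ1 * (η / 2) ^ 2 / 2, by positivity, fun δ hδ hδ0 => ?_⟩
  obtain ⟨n0, hn0⟩ := exists_nat_ge (2 * D / (δ1 * (η / 2) ^ 2))
  have h2 : (1 : ℝ) ≤ (1 + eps allG + η) ^ (theta 𝓕 + η) := Real.one_le_rpow hc1 (by linarith)
  have h3 : (1 : ℝ) ≤ (1 + η) * (1 + eps allG + η) ^ (theta 𝓕 + η) := by nlinarith
  refine eps_le h3 ⟨p, |K| * (1 + eps allG + η) ^ n0, fun n G hG => ?_⟩
  obtain ⟨m, F, hF, hcut⟩ := hG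
  have hbound : ∀ C : Finset (Fin n), (∀ v ∈ C, (G.neighborSet v ∩ C).ncard ≤ D) →
      C.card ≤ ⌊(theta 𝓕 + η) * n⌋₊ + n0 := by
    intro C hC
    have hCn : C.card ≤ n := by
      have := card_le_univ C
      rwa [Fintype.card_fin] at this
    rcases le_or_gt n n0 with hnn | hnn
    · omega
    have hn : 0 < n := by omega
    have hn' : (0 : ℝ) < n := by exact_mod_cast hn
    obtain ⟨hm, C', hC1, hC2⟩ := up_core hn hcut hC hε
    have h4 : (D : ℝ) / n ≤ δ1 * (η / 2) ^ 2 / 2 := by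
      have h5 : 2 * (D : ℝ) / (δ1 * (η / 2) ^ 2) ≤ n := by
        refine hn0.trans ?_
        exact_mod_cast hnn.le
      rw [div_le_iff₀ (by positivity)] at h5
      rw [div_le_iff₀ hn']
      linarith
    have h6 : (δ + D / n) / (η / 2) ^ 2 ≤ δ1 := by
      rw [div_le_iff₀ (by positivity)]
      linarith
    have h7 : (C'.card : ℝ) / m ≤ sp 𝓕 δ1 := by
      refine le_csSup (ratios_bddAbove _ _) ⟨m, F, C', hm, hF, hC1.trans ?_, rfl⟩
      exact mul_le_mul_of_nonneg_right h6 (by positivity)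
    have h8 : (C.card : ℝ) ≤ (theta 𝓕 + η) * n := by
      have h9 : (C.card : ℝ) / n ≤ theta 𝓕 + η := by linarith
      rwa [div_le_iff₀ hn'] at h9
    exact (Nat.le_floor h8).trans (Nat.le_add_right _ _)
  have h4 := hp n G _ hbound
  rw [runs_iff] at h4 ⊢
  refine h4.mono ?_
  have h5 : (1 + eps allG + η) ^ ⌊(theta 𝓕 + η) * n⌋₊ ≤ ((1 + eps allG + η) ^ (theta 𝓕 + η)) ^ n := by
    rw [← Real.rpow_natCast (1 + eps allG + η) ⌊(theta 𝓕 + η) * n⌋₊, ← Real.rpow_natCast _ n,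
      ← Real.rpow_mul (by linarith)]
    exact Real.rpow_le_rpow_of_exponent_le hc1 (Nat.floor_le (by positivity))
  have h6 : (0 : ℝ) ≤ (1 + η) ^ n := by positivity
  have h7 : (0 : ℝ) ≤ (1 + eps allG + η) ^ (⌊(theta 𝓕 + η) * n⌋₊ + n0) := by positivity
  calc K * (1 + η) ^ n * (1 + eps allG + η) ^ (⌊(theta 𝓕 + η) * n⌋₊ + n0)
      ≤ |K| * (1 + η) ^ n * (1 + eps allG + η) ^ (⌊(theta 𝓕 + η) * n⌋₊ + n0) := by
        refine mul_le_mul_of_nonneg_right ?_ h7
        exact mul_le_mul_of_nonneg_right (le_abs_self K) h6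
    _ = |K| * (1 + η) ^ n * (1 + eps allG + η) ^ n0 * (1 + eps allG + η) ^ ⌊(theta 𝓕 + η) * n⌋₊ := by
        rw [pow_add]
        ring
    _ ≤ |K| * (1 + η) ^ n * (1 + eps allG + η) ^ n0 * ((1 + eps allG + η) ^ (theta 𝓕 + η)) ^ n := by
        refine mul_le_mul_of_nonneg_left h5 ?_
        positivity
    _ = |K| * (1 + eps allG + η) ^ n0 * ((1 + η) * (1 + eps allG + η) ^ (theta 𝓕 + η)) ^ n := by
        rw [mul_pow]
        ring

end Pool.Agent.H21.DL
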